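import Pool.Agent.Lib_MP_4369f4.SQC

/-! BAS: facts on ℂ(t) itself. Imports `SQC` (use it as a stub). -/

namespace MP4369f4

open Polynomial

private theorem BAS_lin (b : ℂ) : lin b = algebraMap ℂ[X] (RatFunc ℂ) (X - Polynomial.C b) := by
  rw [map_sub, RatFunc.algebraMap_X, RatFunc.algebraMap_C]
  rfl

private theorem BAS_prod_lin (B : Finset ℂ) :
    ∏ b ∈ B, lin b = algebraMap ℂ[X] (RatFunc ℂ) (∏ b ∈ B, (X - Polynomial.C b)) := by
  rw [map_prod]
  exact Finset.prod_congr rfl fun b _ => BAS_lin b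

private theorem BAS_poly (n : ℕ) : ∀ p : ℂ[X], p ≠ 0 → p.natDegree ≤ n →
    ∃ B : Finset ℂ, ∃ u : ℂ[X], u ≠ 0 ∧ p = (∏ b ∈ B, (X - Polynomial.C b)) * u ^ 2 := by
  induction n with
  | zero =>
    intro p hp hn
    have h1 : p.natDegree = 0 := Nat.le_zero.1 hn
    obtain ⟨c, hc⟩ := Polynomial.natDegree_eq_zero.1 h1
    obtain ⟨d, hd⟩ := IsAlgClosed.exists_pow_nat_eq c (n := 2) (by norm_num)
    refine ⟨∅, Polynomial.C d, ?_, ?_⟩
    · intro h
      rw [Polynomial.C_eq_zero] at h
      apply hp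
      rw [← hc, ← hd, h]
      simp
    · rw [Finset.prod_empty, one_mul, ← Polynomial.C_pow, hd, hc]
  | succ n ih =>
    intro p hp hn
    by_cases h0 : p.natDegree = 0
    · exact ih p hp (by omega)
    · have hdeg : p.degree ≠ 0 := by
        intro h
        exact h0 (Polynomial.natDegree_eq_of_degree_eq_some h)
      obtain ⟨b, hb⟩ := IsAlgClosed.exists_root p hdeg
      obtain ⟨q, hq⟩ := Polynomial.dvd_iff_isRoot.2 hb
      have hq0 : q ≠ 0 := by
        rintro rfl
        rw [mul_zero] at hq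
        exact hp hq
      have hqd : q.natDegree ≤ n := by
        rw [hq, Polynomial.natDegree_mul (X_sub_C_ne_zero b) hq0, natDegree_X_sub_C] at hn
        omega
      obtain ⟨B, u, hu, hBu⟩ := ih q hq0 hqd
      by_cases hbB : b ∈ B
      · refine ⟨B.erase b, (X - Polynomial.C b) * u, mul_ne_zero (X_sub_C_ne_zero b) hu, ?_⟩
        rw [hq, hBu, ← Finset.mul_prod_erase B _ hbB]
        ring
      · refine ⟨insert b B, u, hu, ?_⟩
        rw [hq, hBu, Finset.prod_insert hbB]
        ring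

private theorem BAS_mult_prod (a : ℂ) (B : Finset ℂ) :
    (∏ b ∈ B, (X - Polynomial.C b)).rootMultiplicity a = if a ∈ B then 1 else 0 := by
  classical
  rw [← Polynomial.count_roots, Polynomial.roots_prod_X_sub_C]
  by_cases h : a ∈ B
  · rw [if_pos h]
    exact Multiset.count_eq_one_of_mem B.nodup h
  · rw [if_neg h]
    exact Multiset.count_eq_zero_of_notMem h

private theorem BAS_prod_ne (B : Finset ℂ) : (∏ b ∈ B, (X - Polynomial.C b)) ≠ 0 :=
  Finset.prod_ne_zero_iff.2 fun b _ => X_sub_C_ne_zero b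

private theorem BAS_mult_sq (a : ℂ) {u : ℂ[X]} (hu : u ≠ 0) :
    (u ^ 2).rootMultiplicity a = 2 * u.rootMultiplicity a := by
  rw [pow_two, Polynomial.rootMultiplicity_mul (mul_ne_zero hu hu)]
  ring

private theorem BAS_inj {p q : ℂ[X]} (h : algebraMap ℂ[X] (RatFunc ℂ) p =
    algebraMap ℂ[X] (RatFunc ℂ) q) : p = q := IsFractionRing.injective ℂ[X] (RatFunc ℂ) h

private theorem BAS_ne {p : ℂ[X]} (h : p ≠ 0) : algebraMap ℂ[X] (RatFunc ℂ) p ≠ 0 := by
  intro h0
  apply h
  apply BAS_inj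
  rw [h0, map_zero]

/-- Every nonzero element of ℂ(t) is a square times a finite product of distinct t - b:
f = p/q = (p q)/q^2, p q = c ∏ (X - b)^{m_b} (`IsAlgClosed.splits`, roots multiset), c is a square
in ℂ; B = the set of roots b of p q with odd multiplicity. -/
theorem exists_prod_lin {f : RatFunc ℂ} (hf : f ≠ 0) :
    ∃ B : Finset ℂ, ∃ s : RatFunc ℂ, s ≠ 0 ∧ f = (∏ b ∈ B, lin b) * s ^ 2 := by
  have hn : f.num ≠ 0 := RatFunc.num_ne_zero hf
  have hd : f.denom ≠ 0 := RatFunc.denom_ne_zero f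
  obtain ⟨B, u, hu, hBu⟩ := BAS_poly _ (f.num * f.denom) (mul_ne_zero hn hd) le_rfl
  have hd' := BAS_ne hd
  refine ⟨B, algebraMap ℂ[X] (RatFunc ℂ) u / algebraMap ℂ[X] (RatFunc ℂ) f.denom,
    div_ne_zero (BAS_ne hu) hd', ?_⟩
  have h1 : algebraMap ℂ[X] (RatFunc ℂ) f.num * algebraMap ℂ[X] (RatFunc ℂ) f.denom =
      (∏ b ∈ B, lin b) * algebraMap ℂ[X] (RatFunc ℂ) u ^ 2 := by
    rw [BAS_prod_lin, ← map_mul, hBu, map_mul, map_pow]
  have h2 : f = algebraMap ℂ[X] (RatFunc ℂ) f.num / algebraMap ℂ[X] (RatFunc ℂ) f.denom :=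
    (RatFunc.num_div_denom f).symm
  rw [div_pow, mul_div_assoc', ← h1]
  conv_lhs => rw [h2]
  field_simp

private theorem BAS_two : (2 : RatFunc ℂ) ≠ 0 := by
  have : CharZero (RatFunc ℂ) := charZero_of_injective_ringHom (RatFunc.C : ℂ →+* RatFunc ℂ).injective
  exact two_ne_zero

private theorem BAS_I : (RatFunc.C Complex.I : RatFunc ℂ) ^ 2 = -1 := by
  rw [← map_pow, Complex.I_sq, map_neg, map_one]

private theorem BAS_nrm_lin (a b : ℂ) : Nrm (lin a) (lin b) := by
  by_cases hab : a = b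
  · subst hab
    refine ⟨0, RatFunc.C Complex.I, ?_⟩
    rw [BAS_I]
    ring
  · obtain ⟨c, hc⟩ := IsAlgClosed.exists_pow_nat_eq (a - b) (n := 2) (by norm_num)
    refine ⟨RatFunc.C c, RatFunc.C Complex.I, ?_⟩
    rw [BAS_I, ← map_pow, hc, map_sub]
    unfold lin
    ring

/-- All symbols over ℂ(t) vanish. By `exists_prod_lin`, `Nrm.mul_sq_iff`, `Nrm.sq_mul_left_iff`,
`Nrm.mul`, `Nrm.mul_left` it is enough to treat f = t - a, g = t - b: if a = b:
g = 0^2 - f i^2; if not: t - b = (a - b) + (t - a) = c^2 - (t - a) i^2 with c^2 = a - b. -/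
theorem nrm_ratFunc {f g : RatFunc ℂ} (hf : f ≠ 0) (hg : g ≠ 0) : Nrm f g := by
  classical
  obtain ⟨A, s, hs, rfl⟩ := exists_prod_lin hf
  obtain ⟨B, t, ht, rfl⟩ := exists_prod_lin hg
  rw [Nrm.sq_mul_left_iff hs, Nrm.mul_sq_iff ht]
  have hB : (∏ b ∈ B, lin b) ≠ 0 := Finset.prod_ne_zero_iff.2 fun b _ => lin_ne_zero b
  have h1 : ∀ a : ℂ, Nrm (lin a) (∏ b ∈ B, lin b) := by
    intro a
    clear hg hB
    induction B using Finset.induction_on with
    | empty =>
      rw [Finset.prod_empty]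
      exact Nrm.one _
    | insert b B hb ih =>
      rw [Finset.prod_insert hb]
      exact (BAS_nrm_lin a b).mul ih
  clear hf
  induction A using Finset.induction_on with
  | empty =>
    rw [Finset.prod_empty]
    exact Nrm.of_isSquare_left BAS_two one_ne_zero ⟨1, by ring⟩
  | insert a A ha ih =>
    rw [Finset.prod_insert ha]
    exact Nrm.mul_left BAS_two (lin_ne_zero a)
      (Finset.prod_ne_zero_iff.2 fun b _ => lin_ne_zero b) hB (h1 a) ih

/-- f has even order at a: up to a square it is a product of t - b with b different from a. -/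
def EvenAt (a : ℂ) (f : RatFunc ℂ) : Prop := ∃ B : Finset ℂ, a ∉ B ∧ IsSquare (f * ∏ b ∈ B, lin b)

/-- 1 + (t - a) x^2 is never 0 (otherwise t - a = - (1/x)^2 = (i/x)^2 would be a square,
`prod_lin_not_isSquare` with B = {a}). -/
theorem one_add_ne_zero (a : ℂ) (x : RatFunc ℂ) : 1 + lin a * x ^ 2 ≠ 0 := by
  intro h
  have hx : x ≠ 0 := by
    rintro rfl
    simp at h
  have h1 : IsSquare (∏ b ∈ ({a} : Finset ℂ), lin b) := by
    rw [Finset.prod_singleton]
    refine ⟨RatFunc.C Complex.I / x, ?_⟩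
    rw [← pow_two, div_pow, BAS_I, eq_div_iff (pow_ne_zero 2 hx)]
    linear_combination h
  exact prod_lin_not_isSquare (Finset.singleton_nonempty a) h1

private theorem BAS_evenAt (a : ℂ) {N D : ℂ[X]} (hN : N ≠ 0) (hD : D ≠ 0) :
    EvenAt a (algebraMap ℂ[X] (RatFunc ℂ) N / algebraMap ℂ[X] (RatFunc ℂ) D ^ 2) ↔
      Even (N.rootMultiplicity a) := by
  have hD' := BAS_ne hD
  constructor
  · rintro ⟨B, haB, s, hs⟩
    have h1 : s = algebraMap ℂ[X] (RatFunc ℂ) s.num / algebraMap ℂ[X] (RatFunc ℂ) s.denom :=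
      (RatFunc.num_div_denom s).symm
    have ht : s.denom ≠ 0 := RatFunc.denom_ne_zero s
    have ht' := BAS_ne ht
    have h2 : N * (∏ b ∈ B, (X - Polynomial.C b)) * s.denom ^ 2 = D ^ 2 * s.num ^ 2 := by
      apply BAS_inj
      rw [map_mul, map_mul, map_mul, map_pow, map_pow, map_pow, ← BAS_prod_lin]
      rw [h1] at hs
      generalize algebraMap ℂ[X] (RatFunc ℂ) s.num = r at hs ⊢
      generalize algebraMap ℂ[X] (RatFunc ℂ) s.denom = t at hs ht' ⊢
      field_simp at hs
      linear_combination hs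
    have hr : s.num ≠ 0 := by
      intro h0
      rw [h0] at h2
      have h3 : N * (∏ b ∈ B, (X - Polynomial.C b)) * s.denom ^ 2 ≠ 0 :=
        mul_ne_zero (mul_ne_zero hN (BAS_prod_ne B)) (pow_ne_zero 2 ht)
      apply h3
      rw [h2]
      ring
    have h3 := congrArg (Polynomial.rootMultiplicity a) h2
    rw [Polynomial.rootMultiplicity_mul
        (mul_ne_zero (mul_ne_zero hN (BAS_prod_ne B)) (pow_ne_zero 2 ht)),
      Polynomial.rootMultiplicity_mul (mul_ne_zero hN (BAS_prod_ne B)),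
      Polynomial.rootMultiplicity_mul (mul_ne_zero (pow_ne_zero 2 hD) (pow_ne_zero 2 hr)),
      BAS_mult_sq a ht, BAS_mult_sq a hD, BAS_mult_sq a hr, BAS_mult_prod, if_neg haB] at h3
    rw [Nat.even_iff]
    omega
  · intro hev
    obtain ⟨B, u, hu, hBu⟩ := BAS_poly _ N hN le_rfl
    have hm : N.rootMultiplicity a = (if a ∈ B then 1 else 0) + 2 * u.rootMultiplicity a := by
      conv_lhs => rw [hBu]
      rw [Polynomial.rootMultiplicity_mul (mul_ne_zero (BAS_prod_ne B) (pow_ne_zero 2 hu)),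
        BAS_mult_prod, BAS_mult_sq a hu]
    have haB : a ∉ B := by
      intro h
      rw [if_pos h] at hm
      rw [Nat.even_iff] at hev
      omega
    refine ⟨B, haB, algebraMap ℂ[X] (RatFunc ℂ) ((∏ b ∈ B, (X - Polynomial.C b)) * u) /
      algebraMap ℂ[X] (RatFunc ℂ) D, ?_⟩
    rw [BAS_prod_lin, div_mul_div_comm, div_mul_eq_mul_div, ← map_mul, ← map_mul, pow_two]
    congr 2
    conv_lhs => rw [hBu]
    ring

/-- 1 + (t - a) x^2 has even order at a iff x is regular at a. x = p/q coprime,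
1 + (t - a) x^2 = (q^2 + (t - a) p^2)/q^2. If q(a) is not 0 the numerator does not vanish at a; it is c times
a product of (X - b)^{m_b} with b different from a, take for B the b with m_b odd. If q(a) = 0 then p(a)
is not 0 and the numerator N has a simple root at a (q^2 is divisible by (X - a)^2); if
N ∏_{B} (X - b) u^2 = v^2 with a not in B then the multiplicity of a is odd on the left and even
on the right. -/
theorem evenAt_iff_regular (a : ℂ) (x : RatFunc ℂ) :
    EvenAt a (1 + lin a * x ^ 2) ↔ x.denom.eval a ≠ 0 := by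
  have hd : x.denom ≠ 0 := RatFunc.denom_ne_zero x
  have hd' := BAS_ne hd
  set N : ℂ[X] := x.denom ^ 2 + (X - Polynomial.C a) * x.num ^ 2 with hNdef
  have h1 : 1 + lin a * x ^ 2 =
      algebraMap ℂ[X] (RatFunc ℂ) N / algebraMap ℂ[X] (RatFunc ℂ) x.denom ^ 2 := by
    have h2 : x = algebraMap ℂ[X] (RatFunc ℂ) x.num / algebraMap ℂ[X] (RatFunc ℂ) x.denom :=
      (RatFunc.num_div_denom x).symm
    rw [hNdef, map_add, map_mul, map_pow, map_pow, ← BAS_lin]
    conv_lhs => rw [h2]
    field_simp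
  have hN : N ≠ 0 := by
    intro h0
    rw [h0, map_zero, zero_div] at h1
    exact one_add_ne_zero a x h1
  rw [h1, BAS_evenAt a hN hd]
  constructor
  · intro hev h0
    obtain ⟨q, hq⟩ := Polynomial.dvd_iff_isRoot.2 h0
    have hp : x.num.eval a ≠ 0 := by
      intro hp
      obtain ⟨u, v, huv⟩ := RatFunc.isCoprime_num_denom x
      have h2 := congrArg (Polynomial.eval a) huv
      rw [Polynomial.eval_add, Polynomial.eval_mul, Polynomial.eval_mul, hp, h0,
        Polynomial.eval_one] at h2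
      simp at h2
    set M : ℂ[X] := (X - Polynomial.C a) * q ^ 2 + x.num ^ 2 with hM
    have hNM : N = (X - Polynomial.C a) * M := by
      rw [hNdef, hM, hq]
      ring
    have hMa : M.eval a ≠ 0 := by
      rw [hM]
      simp [hp]
    have hMr : M.rootMultiplicity a = 0 :=
      Polynomial.rootMultiplicity_eq_zero (fun h => hMa h)
    have hM0 : M ≠ 0 := by
      intro h
      rw [h] at hMa
      simp at hMa
    rw [hNM, Polynomial.rootMultiplicity_mul (mul_ne_zero (X_sub_C_ne_zero a) hM0), hMr,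
      Polynomial.rootMultiplicity_X_sub_C_self] at hev
    exact absurd hev (by decide)
  · intro h0
    have hNa : N.eval a ≠ 0 := by
      rw [hNdef]
      simp [h0]
    rw [Polynomial.rootMultiplicity_eq_zero (fun h => hNa h)]
    exact Even.zero

/-- x is a polynomial iff it is regular at all a (the denominator has no root, so it is constant; it is
monic, so 1). -/
theorem poly_iff_regular (x : RatFunc ℂ) :
    (∀ a : ℂ, x.denom.eval a ≠ 0) ↔ ∃ p : ℂ[X], x = algebraMap ℂ[X] (RatFunc ℂ) p := by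
  constructor
  · intro h
    have h1 : x.denom.degree = 0 := by
      by_contra hne
      obtain ⟨a, ha⟩ := IsAlgClosed.exists_root x.denom hne
      exact h a ha
    have h2 : x.denom = 1 :=
      (RatFunc.monic_denom x).eq_one_of_isUnit (Polynomial.isUnit_iff_degree_eq_zero.2 h1)
    refine ⟨x.num, ?_⟩
    have h3 := RatFunc.num_div_denom x
    rw [h2, map_one, div_one] at h3
    exact h3.symm
  · rintro ⟨p, rfl⟩ a
    rw [RatFunc.denom_algebraMap, Polynomial.eval_one]
    exact one_ne_zero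

end MP4369f4
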