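import Pool.Agent.Lib_MP_4369f4.Defs

/-! NRD: norms from divisibility, and the primitive element. Only `Defs` is used. -/

namespace MP4369f4

open Polynomial IntermediateField

/-- If P in E[X] is monic and divides S^2 - f for some S in E[X] (f in E nonzero, char not 2) then P
is a norm from E(X)(sqrt f). Strong induction on deg P. Replace S by S mod P (P monic; S = P T + S0,
S^2 - f = S0^2 - f mod P), so deg S < deg P, or deg P = 0, P = 1: trivial. Let S^2 - f = P P1. If
P1 = 0 then f = S^2 in E[X], so f is a square: `Nrm.of_isSquare_left`. If S is constant then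
S^2 - f is a nonzero constant, so P is a unit, P = 1. Otherwise deg S >= 1, deg(S^2 - f) = 2 deg S, the
leading coefficient of P1 is lc(S)^2 =: l^2, P1 = l^2 P1' with P1' monic,
deg P1' = 2 deg S - deg P < deg P and P1' divides S^2 - f. By induction P1' is a norm, so P1 is
(`Nrm.mul_sq_iff`), S^2 - f = S^2 - f 1^2 is one, hence P = (S^2 - f)/P1 is one (`Nrm.inv`,
`Nrm.mul`). -/
theorem nrm_of_dvd {E : Type*} [Field E] (h2 : (2 : E) ≠ 0) {f : E} (hf : f ≠ 0) (P S : E[X])
    (hP : P.Monic) (h : P ∣ S ^ 2 - C f) :
    Nrm (RatFunc.C f) (algebraMap E[X] (RatFunc E) P) := by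
  have h2K : (2 : RatFunc E) ≠ 0 := by
    intro h0
    apply h2
    have h3 : (RatFunc.C (2 : E) : RatFunc E) = 0 := by
      rw [← h0]
      exact map_ofNat RatFunc.C 2
    exact (map_eq_zero_iff _ RatFunc.C_injective).1 h3
  have hfK : (RatFunc.C f : RatFunc E) ≠ 0 := fun h0 =>
    hf ((map_eq_zero_iff _ RatFunc.C_injective).1 h0)
  have hC : ∀ a : E, algebraMap E[X] (RatFunc E) (C a) = RatFunc.C a := fun a =>
    RatFunc.algebraMap_C a
  have key : ∀ n : ℕ, ∀ P S : E[X], P.natDegree = n → P.Monic → P ∣ S ^ 2 - C f →
      Nrm (RatFunc.C f) (algebraMap E[X] (RatFunc E) P) := by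
    intro n
    induction n using Nat.strong_induction_on with
    | _ n ih =>
      intro P S hn hP h
      rcases Nat.eq_zero_or_pos n with h0 | hpos
      · rw [h0] at hn
        rw [hP.natDegree_eq_zero.1 hn, map_one]
        exact Nrm.one _
      · have hP1 : P ≠ 1 := by
          rintro rfl
          rw [natDegree_one] at hn
          omega
        set S₀ := S %ₘ P with hS₀
        have hdeg : S₀.natDegree < n := by
          rw [← hn]
          exact natDegree_modByMonic_lt S hP hP1
        have hdvd : P ∣ S₀ ^ 2 - C f := by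
          have e1 : S = S₀ + P * (S /ₘ P) := (modByMonic_add_div S P).symm
          have e2 : S₀ ^ 2 - C f = (S ^ 2 - C f) - P * ((S /ₘ P) * (S₀ + S)) := by
            have e3 : P * ((S /ₘ P) * (S₀ + S)) = (S - S₀) * (S₀ + S) := by
              have e4 : S - S₀ = P * (S /ₘ P) := by
                rw [sub_eq_iff_eq_add, add_comm]
                exact e1
              rw [e4]
              ring
            rw [e3]
            ring
          rw [e2]
          exact dvd_sub h (dvd_mul_right _ _)
        by_cases hz : S₀ ^ 2 - C f = 0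
        · refine Nrm.of_isSquare_left h2K hfK ⟨algebraMap E[X] (RatFunc E) S₀, ?_⟩
          rw [← map_mul, ← pow_two, sub_eq_zero.1 hz, hC]
        · obtain ⟨P₁, hP₁⟩ := hdvd
          have hP₁0 : P₁ ≠ 0 := by
            rintro rfl
            rw [mul_zero] at hP₁
            exact hz hP₁
          have hPP : (P * P₁).natDegree = n + P₁.natDegree := by
            rw [natDegree_mul hP.ne_zero hP₁0, hn]
          have hm : 0 < S₀.natDegree := by
            rcases Nat.eq_zero_or_pos S₀.natDegree with hm0 | hm0
            · exfalso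
              have e5 : (S₀ ^ 2 - C f).natDegree = 0 := by
                rw [eq_C_of_natDegree_eq_zero hm0, ← C_pow, ← C_sub, natDegree_C]
              rw [hP₁, hPP] at e5
              omega
            · exact hm0
          have hS₀0 : S₀ ≠ 0 := by
            intro h0
            rw [h0, natDegree_zero] at hm
            omega
          have hlt : (C f : E[X]).natDegree < (S₀ ^ 2).natDegree := by
            rw [natDegree_C, natDegree_pow]
            omega
          have hlt' : (C f : E[X]).degree < (S₀ ^ 2).degree :=
            degree_lt_degree hlt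
          have hd2 : (S₀ ^ 2 - C f).natDegree = 2 * S₀.natDegree := by
            rw [natDegree_sub_eq_left_of_natDegree_lt hlt, natDegree_pow]
          have hlc : (S₀ ^ 2 - C f).leadingCoeff = S₀.leadingCoeff ^ 2 := by
            rw [leadingCoeff_sub_of_degree_lt hlt', leadingCoeff_pow]
          set l := S₀.leadingCoeff with hl
          have hl0 : l ≠ 0 := leadingCoeff_ne_zero.2 hS₀0
          have hlP : P₁.leadingCoeff = l ^ 2 := by
            rw [← hlc, hP₁, leadingCoeff_mul, hP.leadingCoeff, one_mul]
          have hdP : P₁.natDegree < n := by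
            have := hPP
            rw [← hP₁, hd2] at this
            omega
          set P₂ := P₁ * C (l⁻¹ ^ 2) with hP₂
          have hP₂m : P₂.Monic := by
            rw [Monic, hP₂, leadingCoeff_mul, leadingCoeff_C, hlP, ← mul_pow, mul_inv_cancel₀ hl0,
              one_pow]
          have hP₂d : P₂.natDegree = P₁.natDegree :=
            natDegree_mul_C (pow_ne_zero 2 (inv_ne_zero hl0))
          have hP₂P : P₁ = P₂ * C l ^ 2 := by
            rw [hP₂, mul_assoc, ← C_pow, ← C_mul, ← mul_pow, inv_mul_cancel₀ hl0, one_pow, C_1,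
              mul_one]
          have hn2 : Nrm (RatFunc.C f) (algebraMap E[X] (RatFunc E) P₂) := by
            refine ih P₂.natDegree (by rw [hP₂d]; exact hdP) P₂ S₀ rfl hP₂m ?_
            rw [hP₁, hP₂P]
            exact ⟨P * C l ^ 2, by ring⟩
          have hn1 : Nrm (RatFunc.C f) (algebraMap E[X] (RatFunc E) P₁) := by
            rw [hP₂P, map_mul, map_pow]
            refine (Nrm.mul_sq_iff ?_).2 hn2
            rw [hC]
            exact fun h0 => hl0 ((map_eq_zero_iff _ RatFunc.C_injective).1 h0)
          have hn3 : Nrm (RatFunc.C f) (algebraMap E[X] (RatFunc E) (S₀ ^ 2 - C f)) := by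
            refine ⟨algebraMap E[X] (RatFunc E) S₀, 1, ?_⟩
            rw [map_sub, map_pow, hC]
            ring
          have hP₁K : algebraMap E[X] (RatFunc E) P₁ ≠ 0 := by
            intro h0
            exact hP₁0 ((map_eq_zero_iff _ (IsFractionRing.injective E[X] (RatFunc E))).1 h0)
          have hfin : algebraMap E[X] (RatFunc E) P =
              algebraMap E[X] (RatFunc E) (S₀ ^ 2 - C f) * (algebraMap E[X] (RatFunc E) P₁)⁻¹ := by
            rw [hP₁, map_mul, mul_assoc, mul_inv_cancel₀ hP₁K, mul_one]
          rw [hfin]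
          exact hn3.mul hn1.inv
  exact key P.natDegree P S rfl hP h

/-- Primitive element of a multiquadratic extension. E of characteristic 0, B finite.
There are a field L = E(s b : b in B), (s b)^2 = d b for b in B, θ in L and a monic P in E[X] such that θ
is a simple root of P, and for every b in B there is S in E[X] with P dividing S^2 - d b.
Proof: in AlgebraicClosure E choose square roots s' b of d b (`IsAlgClosed.exists_pow_nat_eq`), let
L = adjoin E (s' '' B), finite dimensional over E (`IntermediateField.finiteDimensional_adjoin`), s b =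
⟨s' b, _⟩ for b in B (0 otherwise). adjoin E (s '' B) = ⊤ in L: map to AlgebraicClosure
(`IntermediateField.lift` / `adjoin_map`, or `IntermediateField.adjoin_eq_top_of...`). θ a primitive
element of L/E (`Field.exists_primitive_element`), P = minpoly E θ, separable (char 0), hence θ is a
simple root of P.map (`Polynomial.one_lt_rootMultiplicity_iff_isRoot` or separable derivative). As
E(θ) = L, s b = S(θ) with S in E[X] (`IntermediateField.adjoin_simple_toSubalgebra_of_isAlgebraic`,
`Algebra.adjoin_singleton_eq_range_aeval`), so (S^2 - C (d b))(θ) = 0 and P divides it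
(`minpoly.dvd`). -/
theorem exists_primitive {E ι : Type} [Field E] [CharZero E] (d : ι → E) (B : Finset ι) :
    ∃ (L : Type) (_ : Field L) (_ : Algebra E L) (s : ι → L) (θ : L) (P : E[X]),
      (∀ b ∈ B, s b ^ 2 = algebraMap E L (d b)) ∧ adjoin E (s '' (B : Set ι)) = ⊤ ∧ P.Monic ∧
      (P.map (algebraMap E L)).rootMultiplicity θ = 1 ∧
      ∀ b ∈ B, ∃ S : E[X], P ∣ S ^ 2 - C (d b) := by
  classical
  have hex : ∀ b : ι, ∃ z : AlgebraicClosure E, z ^ 2 = algebraMap E (AlgebraicClosure E) (d b) :=
    fun b => IsAlgClosed.exists_pow_nat_eq _ (by norm_num)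
  choose s' hs' using hex
  set L : IntermediateField E (AlgebraicClosure E) := adjoin E (s' '' (B : Set ι)) with hL
  have hmem : ∀ b ∈ B, s' b ∈ L := fun b hb =>
    subset_adjoin E _ ⟨b, hb, rfl⟩
  haveI hfd : FiniteDimensional E L := by
    haveI : Finite (s' '' (B : Set ι)) := (B.finite_toSet.image s').to_subtype
    exact finiteDimensional_adjoin (fun x _ => Algebra.IsIntegral.isIntegral x)
  let s : ι → L := fun b => if hb : b ∈ B then ⟨s' b, hmem b hb⟩ else 0
  have hs : ∀ b ∈ B, ((s b : L) : AlgebraicClosure E) = s' b := by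
    intro b hb
    show ((if hb : b ∈ B then (⟨s' b, hmem b hb⟩ : L) else 0 : L) : AlgebraicClosure E) = s' b
    rw [dif_pos hb]
  have hsq : ∀ b ∈ B, s b ^ 2 = algebraMap E L (d b) := by
    intro b hb
    apply Subtype.ext
    show ((s b : L) : AlgebraicClosure E) ^ 2 = algebraMap E (AlgebraicClosure E) (d b)
    rw [hs b hb]
    exact hs' b
  obtain ⟨θ, hθ⟩ := Field.exists_primitive_element E L
  have hint : IsIntegral E θ := Algebra.IsIntegral.isIntegral θ
  refine ⟨L, inferInstance, inferInstance, s, θ, minpoly E θ, hsq, ?_, minpoly.monic hint, ?_, ?_⟩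
  · apply lift_injective L
    rw [lift_adjoin, lift_top]
    have e1 : (Subtype.val '' (s '' (B : Set ι)) : Set (AlgebraicClosure E)) =
        s' '' (B : Set ι) := by
      rw [Set.image_image]
      exact Set.image_congr (fun b hb => hs b hb)
    rw [e1]
  · have hsep : (minpoly E θ).Separable := Algebra.IsSeparable.isSeparable E θ
    have hne : (minpoly E θ).map (algebraMap E L) ≠ 0 :=
      ((minpoly.monic hint).map (algebraMap E L)).ne_zero
    have h1 : ((minpoly E θ).map (algebraMap E L)).rootMultiplicity θ ≤ 1 :=
      rootMultiplicity_le_one_of_separable hsep.map θ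
    have h2 : 0 < ((minpoly E θ).map (algebraMap E L)).rootMultiplicity θ := by
      rw [rootMultiplicity_pos hne, IsRoot.def, eval_map_algebraMap]
      exact minpoly.aeval E θ
    omega
  · intro b hb
    have hmem2 : s b ∈ (E⟮θ⟯ : IntermediateField E L).toSubalgebra := by
      rw [hθ]
      exact IntermediateField.mem_top
    rw [adjoin_simple_toSubalgebra_of_isAlgebraic hint.isAlgebraic,
      Algebra.adjoin_singleton_eq_range_aeval] at hmem2
    obtain ⟨S, hS⟩ := hmem2
    refine ⟨S, minpoly.dvd E θ ?_⟩
    have hS' : aeval θ S = s b := hS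
    rw [map_sub, map_pow, hS', aeval_C, hsq b hb, sub_self]

end MP4369f4
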