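import Pool.Agent.Lib_MP_4369f4.DIC
import Pool.Agent.Lib_MP_4369f4.NRD

/-! COD: codes of finite subsets of ℂ in K(X), K a tower. Imports DIC NRD KUM RES SQC as stubs. -/

namespace MP4369f4

open Polynomial

/-- multiplicativity: if `h` is a product of `t - b` up to a square and all `t - b` are norms for `g`
then so is `h` -/
theorem nrm_of_prod {K : Type} [Field K] {φ : RatFunc ℂ →+* K} (hT : Tower K φ)
    {B : Finset ℂ} {h : RatFunc ℂ} (hh : h ≠ 0) {g : RatFunc K} (hg : g ≠ 0)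
    (hsq : IsSquare (h * ∏ b ∈ B, lin b)) (hb : ∀ b ∈ B, Nrm (RatFunc.C (φ (lin b))) g) :
    Nrm (RatFunc.C (φ h)) g := by
  classical
  have h2 := (Tower.step K φ hT).two_ne_zero
  have hP0 : ∀ B : Finset ℂ, ∏ b ∈ B, lin b ≠ 0 := fun B =>
    Finset.prod_ne_zero_iff.2 fun b _ => lin_ne_zero b
  have hN : Nrm (RatFunc.C (φ (∏ b ∈ B, lin b))) g := by
    clear hsq
    induction B using Finset.induction_on with
    | empty =>
      rw [Finset.prod_empty, map_one, map_one]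
      exact Nrm.of_isSquare_left h2 one_ne_zero ⟨1, by rw [mul_one]⟩
    | insert c B hc ih =>
      rw [Finset.prod_insert hc, map_mul, map_mul]
      refine Nrm.mul_left h2 ?_ ?_ hg (hb c (Finset.mem_insert_self c B))
        (ih fun b hb' => hb b (Finset.mem_insert_of_mem hb'))
      · exact (_root_.map_ne_zero RatFunc.C).2 ((_root_.map_ne_zero φ).2 (lin_ne_zero c))
      · exact (_root_.map_ne_zero RatFunc.C).2 ((_root_.map_ne_zero φ).2 (hP0 B))
  obtain ⟨s, hs⟩ := hsq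
  have hs0 : s ≠ 0 := by
    rintro rfl
    rw [mul_zero] at hs
    exact mul_ne_zero hh (hP0 B) hs
  have h3 : h = (∏ b ∈ B, lin b) * (s / ∏ b ∈ B, lin b) ^ 2 := by
    have := hP0 B
    field_simp
    rw [hs]
    ring
  rw [h3, map_mul, map_mul, map_pow, map_pow, Nrm.sq_mul_left_iff]
  · exact hN
  · exact (_root_.map_ne_zero RatFunc.C).2 ((_root_.map_ne_zero φ).2 (div_ne_zero hs0 (hP0 B)))

/-- A code for the finite set B. E = K, d b = φ (t - b), `exists_primitive` gives L, s, θ, P; g = P.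
<-: h ∏_{B'} (t - b) = square; for b in B, Nrm (C (φ (t - b))) P by `nrm_of_dvd`; so by
`Nrm.mul_left`, `Nrm.sq_mul_left_iff` (h = (h ∏ (t-b)) * (∏ (t-b)) / (∏ (t - b))^2) Nrm (φ h) g.
->: by `isSquare_of_nrm` φ h is a square in L = adjoin E (s '' B), then `kummer` gives B' ⊆ B with
φ h ∏_{B'} φ (t - b) a square in K, and `Tower.isSquare_of` finishes. -/
theorem Tower.exists_code {K : Type} [Field K] {φ : RatFunc ℂ →+* K} (hT : Tower K φ)
    (B : Finset ℂ) : ∃ g : RatFunc K, g ≠ 0 ∧ ∀ h : RatFunc ℂ, h ≠ 0 →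
      (Nrm (RatFunc.C (φ h)) g ↔ ∃ B' ⊆ B, IsSquare (h * ∏ b ∈ B', lin b)) := by
  classical
  have := hT.charZero
  have h2 := hT.two_ne_zero
  obtain ⟨L, _, _, s, θ, P, hs, htop, hP, hθ, hS⟩ :=
    exists_primitive (E := K) (fun b : ℂ => φ (lin b)) B
  have hP0 : algebraMap K[X] (RatFunc K) P ≠ 0 := RatFunc.algebraMap_ne_zero hP.ne_zero
  refine ⟨algebraMap K[X] (RatFunc K) P, hP0, fun h hh => ⟨fun hN => ?_, ?_⟩⟩
  · have h1 := isSquare_of_nrm ((_root_.map_ne_zero φ).2 hh) hP.ne_zero (θ := θ) (by rw [hθ]; exact odd_one) hN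
    obtain ⟨u, hu⟩ := h1
    obtain ⟨B', hB', hsq⟩ := kummer h2 s (fun b : ℂ => φ (lin b)) B hs
      (fun b _ => (_root_.map_ne_zero φ).2 (lin_ne_zero b)) (φ h)
      ⟨u, by rw [htop]; trivial, by rw [hu, pow_two]⟩
    refine ⟨B', hB', hT.isSquare_of ?_⟩
    rw [map_mul, map_prod]
    exact hsq
  · rintro ⟨B', hB', hsq⟩
    refine nrm_of_prod hT hh hP0 hsq fun b hb => ?_
    obtain ⟨S, hS'⟩ := hS b (hB' hb)
    exact nrm_of_dvd h2 ((_root_.map_ne_zero φ).2 (lin_ne_zero b)) P S hP hS'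

/-- Even order at a in terms of symbols over RatFunc K.
->: f ∏_B (t - b) a square, a not in B; g = code of B. Nrm f g clear. Nrm (t - a) g would give
B' ⊆ B with (t - a) ∏_{B'} (t - b) a square, contradicting `prod_lin_not_isSquare` (insert a B').
For g' as in the hypothesis and h with Nrm h g: h ∏_{B'} (t - b) is a square with B' ⊆ B, all b in B
satisfy Nrm (t - b) g (code, B' = {b}), so Nrm (t - b) g', so Nrm h g' by multiplicativity.
<-: the set B0 of b with Nrm (t - b) g is finite by `Tower.dichotomy` for the tower RatFunc K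
(second alternative impossible because of a); g' = code of B0; the hypothesis gives Nrm f g', so
f ∏_{B'} (t - b) is a square with B' ⊆ B0, and a is not in B0. -/
theorem Tower.evenAt_iff {K : Type} [Field K] {φ : RatFunc ℂ →+* K} (hT : Tower K φ) (a : ℂ)
    {f : RatFunc ℂ} (hf : f ≠ 0) :
    EvenAt a f ↔ ∃ g : RatFunc K, g ≠ 0 ∧ Nrm (RatFunc.C (φ f)) g ∧
      ¬ Nrm (RatFunc.C (φ (lin a))) g ∧
      ∀ g' : RatFunc K, g' ≠ 0 →
        (∀ b : ℂ, Nrm (RatFunc.C (φ (lin b))) g → Nrm (RatFunc.C (φ (lin b))) g') →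
        ∀ h : RatFunc ℂ, h ≠ 0 → Nrm (RatFunc.C (φ h)) g → Nrm (RatFunc.C (φ h)) g' := by
  classical
  have hsingle : ∀ (B : Finset ℂ) (b : ℂ), b ∈ B → ∃ B' ⊆ B, IsSquare (lin b * ∏ c ∈ B', lin c) := by
    intro B b hb
    refine ⟨{b}, Finset.singleton_subset_iff.2 hb, lin b, ?_⟩
    rw [Finset.prod_singleton]
  constructor
  · rintro ⟨B, haB, hsq⟩
    obtain ⟨g, hg0, hg⟩ := hT.exists_code B
    refine ⟨g, hg0, (hg f hf).2 ⟨B, subset_rfl, hsq⟩, fun hN => ?_, fun g' hg'0 hgg' h hh hN => ?_⟩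
    · obtain ⟨B', hB', hsq'⟩ := (hg _ (lin_ne_zero a)).1 hN
      have haB' : a ∉ B' := fun h => haB (hB' h)
      rw [← Finset.prod_insert haB'] at hsq'
      exact MP4369f4.prod_lin_not_isSquare (Finset.insert_nonempty a B') hsq'
    · obtain ⟨B', hB', hsq'⟩ := (hg h hh).1 hN
      refine nrm_of_prod hT hh hg'0 hsq' fun b hb => ?_
      exact hgg' b ((hg _ (lin_ne_zero b)).2 (hsingle B b (hB' hb)))
  · rintro ⟨g, hg0, hfg, hag, hyp⟩
    rcases (Tower.step K φ hT).dichotomy hg0 with hfin | hall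
    · obtain ⟨g', hg'0, hg'⟩ := hT.exists_code hfin.toFinset
      have h1 := hyp g' hg'0 (fun b hb => (hg' _ (lin_ne_zero b)).2
        (hsingle _ b ((Set.Finite.mem_toFinset hfin).2 hb))) f hf hfg
      obtain ⟨B', hB', hsq'⟩ := (hg' f hf).1 h1
      refine ⟨B', fun h => hag ?_, hsq'⟩
      exact (Set.Finite.mem_toFinset hfin).1 (hB' h)
    · exact absurd (hall _ (lin_ne_zero a)) hag

end MP4369f4
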