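import Pool.Agent.Lib_MP_4369f4.Defs

/-! KUM: multiquadratic extensions. Only Mathlib is used. -/

namespace MP4369f4

open Polynomial IntermediateField

/-- the elements `v + w * c` with `v, w` in `M`, `c ^ 2` in `M`, form a field -/
theorem kum_adj {E L : Type*} [Field E] [Field L] [Algebra E L] (M : IntermediateField E L) (c : L)
    (hc : c ^ 2 ∈ M) : ∃ N : IntermediateField E L, M ≤ N ∧ c ∈ N ∧
      ∀ x ∈ N, ∃ v ∈ M, ∃ w ∈ M, x = v + w * c := by
  refine ⟨{ carrier := {x | ∃ v ∈ M, ∃ w ∈ M, x = v + w * c}
            mul_mem' := ?_, one_mem' := ?_, add_mem' := ?_, zero_mem' := ?_,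
            algebraMap_mem' := ?_, inv_mem' := ?_ }, ?_, ?_, ?_⟩
  · rintro _ _ ⟨v, hv, w, hw, rfl⟩ ⟨v', hv', w', hw', rfl⟩
    refine ⟨v * v' + w * w' * c ^ 2, M.add_mem (M.mul_mem hv hv')
      (M.mul_mem (M.mul_mem hw hw') hc), v * w' + w * v',
      M.add_mem (M.mul_mem hv hw') (M.mul_mem hw hv'), ?_⟩
    ring
  · exact ⟨1, M.one_mem, 0, M.zero_mem, by ring⟩
  · rintro _ _ ⟨v, hv, w, hw, rfl⟩ ⟨v', hv', w', hw', rfl⟩
    exact ⟨v + v', M.add_mem hv hv', w + w', M.add_mem hw hw', by ring⟩
  · exact ⟨0, M.zero_mem, 0, M.zero_mem, by ring⟩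
  · intro r
    exact ⟨algebraMap E L r, M.algebraMap_mem r, 0, M.zero_mem, by ring⟩
  · rintro _ ⟨v, hv, w, hw, rfl⟩
    by_cases h0 : v - w * c = 0
    · have h1 : v + w * c = 2 * v := by
        have h2 : w * c = v := (sub_eq_zero.1 h0).symm
        rw [h2]
        ring
      rw [h1]
      refine ⟨(2 * v)⁻¹, M.inv_mem (M.mul_mem ?_ hv), 0, M.zero_mem, by ring⟩
      exact ofNat_mem M 2
    · by_cases h1 : v + w * c = 0
      · rw [h1, inv_zero]
        exact ⟨0, M.zero_mem, 0, M.zero_mem, by ring⟩
      · have h2 : v ^ 2 - w ^ 2 * c ^ 2 ≠ 0 := by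
          have h3 : v ^ 2 - w ^ 2 * c ^ 2 = (v + w * c) * (v - w * c) := by ring
          rw [h3]
          exact mul_ne_zero h1 h0
        have h4 : (v ^ 2 - w ^ 2 * c ^ 2)⁻¹ ∈ M :=
          M.inv_mem (M.sub_mem (pow_mem hv 2) (M.mul_mem (pow_mem hw 2) hc))
        refine ⟨v * (v ^ 2 - w ^ 2 * c ^ 2)⁻¹, M.mul_mem hv h4,
          -w * (v ^ 2 - w ^ 2 * c ^ 2)⁻¹, M.mul_mem (M.neg_mem hw) h4, ?_⟩
        field_simp
        ring
  · intro x hx
    exact ⟨x, hx, 0, M.zero_mem, by ring⟩
  · exact ⟨0, M.zero_mem, 1, M.one_mem, by ring⟩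
  · intro x hx
    exact hx

theorem kum_two {E L : Type*} [Field E] [Field L] [Algebra E L] (h2 : (2 : E) ≠ 0) :
    (2 : L) ≠ 0 := by
  intro h
  apply h2
  apply (algebraMap E L).injective
  rw [map_zero, ← h]
  exact map_ofNat _ 2

/-- Kummer theory for square roots. L/E a field extension, char not 2, s b in L with
(s b)^2 = d b in E, d b nonzero (b in B). If h in E has a square root in E(s b : b in B) then
h * ∏_{b in B'} d b is a square in E for some subset B' of B.
Induction on B, for all h. B empty: adjoin E ∅ = ⊥, so u in E and h is a square in E.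
B = insert c B1: M = adjoin E (s '' B1); adjoin E (s '' (insert c B1)) = adjoin over M of s c.
If s c in M nothing changes and the induction hypothesis applies. Otherwise every element of the new
field is u = v + w s c with v, w in M (M + M (s c) is a field, or: s c is integral over M with minimal
polynomial X^2 - d c, power basis), u^2 = v^2 + w^2 d c + 2 v w s c lies in E, inside M, so
v w = 0 (s c not in M, 2 nonzero). If w = 0: u in M, induction hypothesis. If v = 0: h = w^2 d c, so
h / d c = w^2 is a square of an element of M; the induction hypothesis for h / d c gives B' and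
(h / d c) ∏_{B'} d b is a square in E, so h * ∏_{insert c B'} d b = (h/d c) (d c)^2 ∏_{B'} d b is
one. -/
theorem kummer {E L ι : Type*} [Field E] [Field L] [Algebra E L] [DecidableEq ι]
    (h2 : (2 : E) ≠ 0) (s : ι → L) (d : ι → E) (B : Finset ι)
    (hs : ∀ b ∈ B, s b ^ 2 = algebraMap E L (d b)) (hd : ∀ b ∈ B, d b ≠ 0) (h : E)
    (hh : ∃ u ∈ adjoin E (s '' (B : Set ι)), u ^ 2 = algebraMap E L h) :
    ∃ B' ⊆ B, IsSquare (h * ∏ b ∈ B', d b) := by
  classical
  induction B using Finset.induction_on generalizing h with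
  | empty =>
    obtain ⟨u, hu, huh⟩ := hh
    rw [Finset.coe_empty, Set.image_empty, adjoin_empty, mem_bot] at hu
    obtain ⟨v, rfl⟩ := hu
    refine ⟨∅, subset_rfl, v, ?_⟩
    apply (algebraMap E L).injective
    rw [Finset.prod_empty, mul_one, ← huh, map_mul, sq]
  | insert c B hc ih =>
    have hsB : ∀ b ∈ B, s b ^ 2 = algebraMap E L (d b) := fun b hb =>
      hs b (Finset.mem_insert_of_mem hb)
    have hdB : ∀ b ∈ B, d b ≠ 0 := fun b hb => hd b (Finset.mem_insert_of_mem hb)
    have hsc := hs c (Finset.mem_insert_self c B)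
    have hdc := hd c (Finset.mem_insert_self c B)
    obtain ⟨u, hu, huh⟩ := hh
    set M := adjoin E (s '' (B : Set ι)) with hM
    have hscM : s c ^ 2 ∈ M := by
      rw [hsc]
      exact M.algebraMap_mem _
    obtain ⟨N, hMN, hcN, hN⟩ := kum_adj M (s c) hscM
    have hle : adjoin E (s '' ((insert c B : Finset ι) : Set ι)) ≤ N := by
      rw [adjoin_le_iff]
      rintro _ ⟨b, hb, rfl⟩
      rw [Finset.mem_coe, Finset.mem_insert] at hb
      rcases hb with rfl | hb
      · exact hcN
      · exact hMN (subset_adjoin E _ ⟨b, hb, rfl⟩)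
    obtain ⟨v, hv, w, hw, rfl⟩ := hN u (hle hu)
    -- case `u` in `M`
    have hcase : ∀ h : E, (∃ u ∈ M, u ^ 2 = algebraMap E L h) →
        ∃ B' ⊆ insert c B, IsSquare (h * ∏ b ∈ B', d b) := by
      intro h hh
      obtain ⟨B', hB', hsq⟩ := ih hsB hdB h hh
      exact ⟨B', hB'.trans (Finset.subset_insert c B), hsq⟩
    by_cases hcM : s c ∈ M
    · exact hcase h ⟨v + w * s c, M.add_mem hv (M.mul_mem hw hcM), huh⟩
    · have h2L : (2 : L) ≠ 0 := kum_two h2
      have hvw : v * w = 0 := by
        by_contra hne
        apply hcM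
        have h1 : s c = (algebraMap E L h - v ^ 2 - w ^ 2 * s c ^ 2) * (2 * (v * w))⁻¹ := by
          rw [← huh]
          have h3 : (2 * (v * w)) ≠ 0 := mul_ne_zero h2L hne
          rw [eq_mul_inv_iff_mul_eq₀ h3]
          ring
        rw [h1]
        refine M.mul_mem (M.sub_mem (M.sub_mem (M.algebraMap_mem _) (pow_mem hv 2))
          (M.mul_mem (pow_mem hw 2) hscM)) (M.inv_mem (M.mul_mem ?_ (M.mul_mem hv hw)))
        exact ofNat_mem M 2
      rcases mul_eq_zero.1 hvw with h0 | h0
      · subst h0
        have h3 : ∃ u ∈ M, u ^ 2 = algebraMap E L (h / d c) := by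
          refine ⟨w, hw, ?_⟩
          have h4 : algebraMap E L (d c) ≠ 0 := by
            intro h5
            exact hdc ((algebraMap E L).injective (by rw [h5, map_zero]))
          rw [map_div₀, ← huh, ← hsc, eq_div_iff (by rw [hsc]; exact h4)]
          ring
        obtain ⟨B', hB', hsq⟩ := ih hsB hdB (h / d c) h3
        have hcB' : c ∉ B' := fun hcB => hc (hB' hcB)
        refine ⟨insert c B', Finset.insert_subset_insert c hB', ?_⟩
        obtain ⟨r, hr⟩ := hsq
        refine ⟨r * d c, ?_⟩
        rw [Finset.prod_insert hcB']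
        calc h * (d c * ∏ b ∈ B', d b) = (h / d c * ∏ b ∈ B', d b) * (d c * d c) := by
              field_simp
          _ = r * d c * (r * d c) := by
              rw [hr]
              ring
      · subst h0
        rw [zero_mul, add_zero] at huh
        exact hcase h ⟨v, hv, huh⟩

/-- Degree of a multiquadratic extension: if no product ∏_{b in B'} d b, B' nonempty subset of B, is a
square in E then [E(s b : b in B) : E] = 2^|B|. Induction on B: for B = insert c B1 the element s c is
not in M = E(s b : b in B1): otherwise d c is the square of an element of M and `kummer` gives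
B' ⊆ B1 with d c * ∏_{B'} d b a square in E, contradiction with B' ∪ {c}. So M(s c)/M has degree 2
and the tower law finishes. (`IntermediateField.finrank` lemmas, `minpoly` of s c over M is
X^2 - d c.) It is enough to prove the inequality `2 ^ B.card ≤ finrank`. -/
theorem two_pow_le_finrank {E L ι : Type*} [Field E] [Field L] [Algebra E L] [DecidableEq ι]
    [FiniteDimensional E L] (h2 : (2 : E) ≠ 0) (s : ι → L) (d : ι → E) (B : Finset ι)
    (hs : ∀ b ∈ B, s b ^ 2 = algebraMap E L (d b))
    (hd : ∀ B' ⊆ B, B'.Nonempty → ¬ IsSquare (∏ b ∈ B', d b)) :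
    2 ^ B.card ≤ Module.finrank E L := by
  classical
  have hdne : ∀ b ∈ B, d b ≠ 0 := by
    intro b hb h0
    refine hd {b} (Finset.singleton_subset_iff.2 hb) (Finset.singleton_nonempty b) ?_
    rw [Finset.prod_singleton, h0]
    exact ⟨0, by ring⟩
  have key : ∀ B' ⊆ B, 2 ^ B'.card ≤ Module.finrank E (adjoin E (s '' (B' : Set ι))) := by
    intro B' hB'
    induction B' using Finset.induction_on with
    | empty =>
      rw [Finset.card_empty, pow_zero]
      exact Module.finrank_pos
    | insert c B' hc ih =>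
      have hB1 : B' ⊆ B := (Finset.subset_insert c B').trans hB'
      have hcB : c ∈ B := hB' (Finset.mem_insert_self c B')
      have h1 := ih hB1
      set M := adjoin E (s '' (B' : Set ι)) with hM
      set M' := adjoin E (s '' ((insert c B' : Finset ι) : Set ι)) with hM'
      have hle : M ≤ M' := adjoin.mono E _ _ (Set.image_mono (Finset.coe_subset.2
        (Finset.subset_insert c B')))
      have hcM' : s c ∈ M' := subset_adjoin E _ ⟨c, Finset.mem_coe.2
        (Finset.mem_insert_self c B'), rfl⟩
      have hcM : s c ∉ M := by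
        intro hcM
        obtain ⟨B'', hB'', hsq⟩ := kummer h2 s d B' (fun b hb => hs b (hB1 hb))
          (fun b hb => hdne b (hB1 hb)) (d c) ⟨s c, hcM, hs c hcB⟩
        have hcB'' : c ∉ B'' := fun h => hc (hB'' h)
        refine hd (insert c B'') ?_ (Finset.insert_nonempty c B'') ?_
        · exact Finset.insert_subset hcB (hB''.trans hB1)
        · rw [Finset.prod_insert hcB'']
          exact hsq
      have hdvd : Module.finrank E M ∣ Module.finrank E M' := finrank_dvd_of_le_right hle
      have hne : Module.finrank E M ≠ Module.finrank E M' := by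
        intro h
        have h3 := eq_of_le_of_finrank_eq hle h
        rw [h3] at hcM
        exact hcM hcM'
      obtain ⟨q, hq⟩ := hdvd
      have hpos : 0 < Module.finrank E M' := Module.finrank_pos
      have hq2 : 2 ≤ q := by
        rcases q with _ | _ | q
        · rw [mul_zero] at hq
          omega
        · rw [zero_add, mul_one] at hq
          exact absurd hq.symm hne
        · omega
      rw [Finset.card_insert_of_notMem hc, pow_succ, hq]
      exact Nat.mul_le_mul h1 hq2
  exact (key B subset_rfl).trans (adjoin E (s '' (B : Set ι))).toSubmodule.finrank_le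

/-- Only finitely many d b are squares in a finite extension L of E, if no nonempty finite product of
the d b (b distinct) is a square in E: a finite set B of such b has 2^|B| <= [L : E]
(`two_pow_le_finrank`), so the set has at most [L : E] elements. -/
theorem finite_isSquare {E L ι : Type*} [Field E] [Field L] [Algebra E L] [DecidableEq ι]
    [FiniteDimensional E L] (h2 : (2 : E) ≠ 0) (d : ι → E)
    (hd : ∀ B : Finset ι, B.Nonempty → ¬ IsSquare (∏ b ∈ B, d b)) :
    {b : ι | IsSquare (algebraMap E L (d b))}.Finite := by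
  classical
  by_contra hinf
  have hinf' : {b : ι | IsSquare (algebraMap E L (d b))}.Infinite := hinf
  obtain ⟨B, hB, hcard⟩ := hinf'.exists_subset_card_eq (Module.finrank E L)
  have hex : ∀ b : ι, ∃ r : L, b ∈ B → r ^ 2 = algebraMap E L (d b) := by
    intro b
    by_cases hb : b ∈ B
    · obtain ⟨r, hr⟩ := hB hb
      exact ⟨r, fun _ => by rw [hr, sq]⟩
    · exact ⟨0, fun h => absurd h hb⟩
  choose s hs using hex
  have h1 := two_pow_le_finrank h2 s d B hs (fun B' _ hne => hd B' hne)
  rw [hcard] at h1
  exact absurd h1 (not_le.2 Nat.lt_two_pow_self)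

end MP4369f4
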