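import Pool.Agent.Lib_MP_4369f4.Defs

/-! PEN: pencils of polynomials, odd roots. Only Mathlib is used. -/

namespace MP4369f4

open Polynomial

/-- Wronskian argument. A, B coprime in E[X], char 0, not both constant, S a finite set of at least 5
elements of E. Then for some b in S the polynomial A - b B is not of the form c U^2 (c in E).
Proof. Suppose A - b B = c_b U_b^2 for all b in S. W = A' B - A B' is not zero: otherwise
B divides A' B - W = A B', so B divides B' (coprime), B' = 0, B constant (nonzero, or A is a unit),
and then A' B = 0, A constant; if B = 0 then A is a unit, so both constant. For each b: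
W = (A - b B)' B - (A - b B) B' and U_b divides A - b B = c_b U_b^2 and its derivative
c_b 2 U_b U_b', so U_b divides W. The A - b B (b in S) are pairwise coprime (A, B coprime:
(A - b B) - (A - b' B) = (b' - b) B and the same for A), so the U_b are pairwise coprime and their
product divides W. Let m = max(deg A, deg B) >= 1; deg W <= deg A + deg B - 1 <= 2m - 1. At most one
b has deg (A - b B) < m (look at the coefficient of X^m: a - b b' with (a, b') not zero), the others have
deg U_b = m/2 (c_b nonzero), so the product of the U_b has degree >= 4 m/2 = 2m > 2m - 1.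
Contradiction. -/
theorem pencil {E : Type*} [Field E] [CharZero E] {A B : E[X]} (hAB : IsCoprime A B)
    (hnc : ¬ (A.natDegree = 0 ∧ B.natDegree = 0)) (S : Finset E) (hS : 5 ≤ S.card) :
    ∃ b ∈ S, ¬ ∃ (c : E) (U : E[X]), A - C b * B = C c * U ^ 2 := by
  classical
  by_contra hcon
  push Not at hcon
  choose! c U hU using hcon
  -- no member of the pencil vanishes
  have hF0 : ∀ b, A - C b * B ≠ 0 := by
    intro b hb
    have hA : A = C b * B := sub_eq_zero.1 hb
    have hBu : IsUnit B := hAB.isUnit_of_dvd' (by rw [hA]; exact dvd_mul_left _ _) dvd_rfl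
    have hB0 : B.natDegree = 0 := natDegree_eq_zero_of_isUnit hBu
    refine hnc ⟨?_, hB0⟩
    have h1 : A.natDegree ≤ B.natDegree := by
      rw [hA]
      exact natDegree_C_mul_le _ _
    omega
  have hW0 : wronskian A B ≠ 0 := by
    intro h
    rw [hAB.wronskian_eq_zero_iff] at h
    exact hnc ⟨derivative_eq_zero.1 h.1, derivative_eq_zero.1 h.2⟩
  have hdeg : (wronskian A B).natDegree < A.natDegree + B.natDegree :=
    natDegree_wronskian_lt_add hW0
  have hU0 : ∀ b ∈ S, U b ≠ 0 ∧ c b ≠ 0 := by
    intro b hb
    have h1 := hU b hb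
    have h2 := hF0 b
    rw [h1] at h2
    constructor
    · rintro h3
      apply h2
      rw [h3]
      ring
    · rintro h3
      apply h2
      rw [h3]
      simp
  -- each `U b` divides the Wronskian
  have hdvd : ∀ b ∈ S, U b ∣ wronskian A B := by
    intro b hb
    have h1 : wronskian A B = wronskian (A - C b * B) B := by
      simp only [wronskian, derivative_sub, derivative_C_mul]
      ring
    rw [h1, hU b hb]
    have h2 : U b ∣ C (c b) * U b ^ 2 := ⟨C (c b) * U b, by ring⟩
    have h3 : U b ∣ derivative (C (c b) * U b ^ 2) :=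
      ⟨C (c b) * (2 * derivative (U b)), by
        rw [derivative_C_mul, derivative_pow]
        simp only [Nat.cast_ofNat, Nat.add_one_sub_one, pow_one]
        have h5 : (C (2 : E) : E[X]) = 2 := rfl
        rw [h5]
        ring⟩
    unfold wronskian
    exact dvd_sub (h2.mul_right _) (h3.mul_right _)
  -- pairwise coprime
  have hcop : (S : Set E).Pairwise (Function.onFun IsCoprime U) := by
    intro b hb b' hb' hne
    have hF : IsCoprime (A - C b * B) (A - C b' * B) := by
      obtain ⟨u, v, huv⟩ := hAB
      have hd : (b' - b) ≠ 0 := sub_ne_zero.2 hne.symm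
      have hCd : C (b' - b)⁻¹ * (C b' - C b) = (1 : E[X]) := by
        rw [← C_sub, ← C_mul, inv_mul_cancel₀ hd, C_1]
      refine ⟨C (b' - b)⁻¹ * (u * C b' + v), C (b' - b)⁻¹ * (-(u * C b) - v), ?_⟩
      calc C (b' - b)⁻¹ * (u * C b' + v) * (A - C b * B) +
            C (b' - b)⁻¹ * (-(u * C b) - v) * (A - C b' * B)
          = C (b' - b)⁻¹ * (C b' - C b) * (u * A + v * B) := by ring
        _ = 1 := by rw [hCd, huv, one_mul]
    have h1 : U b ∣ A - C b * B := by
      rw [hU b hb]
      exact ⟨C (c b) * U b, by ring⟩
    have h2 : U b' ∣ A - C b' * B := by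
      rw [hU b' hb']
      exact ⟨C (c b') * U b', by ring⟩
    exact IsCoprime.mono h1 h2 hF
  have hprod : ∏ b ∈ S, U b ∣ wronskian A B := Finset.prod_dvd_of_coprime hcop hdvd
  have hsum : ∑ b ∈ S, (U b).natDegree ≤ (wronskian A B).natDegree := by
    have h1 := natDegree_le_of_dvd hprod hW0
    rwa [natDegree_prod _ _ (fun b hb => (hU0 b hb).1)] at h1
  -- degrees of the members
  have hdU : ∀ b ∈ S, (A - C b * B).natDegree = 2 * (U b).natDegree := by
    intro b hb
    rw [hU b hb, natDegree_C_mul (hU0 b hb).2, natDegree_pow]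
  set m := max A.natDegree B.natDegree with hm
  have hbig : ∀ b b', b ≠ b' → m ≤ (A - C b * B).natDegree ∨ m ≤ (A - C b' * B).natDegree := by
    intro b b' hne
    by_contra hcon
    push Not at hcon
    have e1 : (A - C b * B).coeff m = 0 := coeff_eq_zero_of_natDegree_lt hcon.1
    have e2 : (A - C b' * B).coeff m = 0 := coeff_eq_zero_of_natDegree_lt hcon.2
    rw [coeff_sub, coeff_C_mul] at e1 e2
    have e3 : (b - b') * B.coeff m = 0 := by linear_combination e2 - e1
    have e4 : B.coeff m = 0 := (mul_eq_zero.1 e3).resolve_left (sub_ne_zero.2 hne)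
    have e5 : A.coeff m = 0 := by rw [e4] at e1; simpa using e1
    rcases le_total A.natDegree B.natDegree with h | h
    · have hmB : m = B.natDegree := max_eq_right h
      rw [hmB, coeff_natDegree, leadingCoeff_eq_zero] at e4
      rw [e4, natDegree_zero] at h
      exact hnc ⟨Nat.le_zero.1 h, by rw [e4, natDegree_zero]⟩
    · have hmA : m = A.natDegree := max_eq_left h
      rw [hmA, coeff_natDegree, leadingCoeff_eq_zero] at e5
      rw [e5, natDegree_zero] at h
      exact hnc ⟨by rw [e5, natDegree_zero], Nat.le_zero.1 h⟩
  -- the members of small degree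
  have hsmall : (S.filter (fun b => (A - C b * B).natDegree < m)).card ≤ 1 := by
    rw [Finset.card_le_one]
    intro b hb b' hb'
    by_contra hne
    rw [Finset.mem_filter] at hb hb'
    rcases hbig b b' hne with h | h
    · exact absurd hb.2 (not_lt.2 h)
    · exact absurd hb'.2 (not_lt.2 h)
  have hlarge : 4 ≤ (S.filter (fun b => ¬ (A - C b * B).natDegree < m)).card := by
    have h1 := Finset.card_filter_add_card_filter_not (s := S)
      (fun b => (A - C b * B).natDegree < m)
    omega
  have hge : 4 * m ≤ 2 * ∑ b ∈ S, (U b).natDegree := by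
    calc 4 * m ≤ (S.filter (fun b => ¬ (A - C b * B).natDegree < m)).card * m :=
          Nat.mul_le_mul_right _ hlarge
      _ = ∑ b ∈ S.filter (fun b => ¬ (A - C b * B).natDegree < m), m := by
          rw [Finset.sum_const, smul_eq_mul]
      _ ≤ ∑ b ∈ S.filter (fun b => ¬ (A - C b * B).natDegree < m), 2 * (U b).natDegree := by
          refine Finset.sum_le_sum fun b hb => ?_
          rw [Finset.mem_filter] at hb
          rw [← hdU b hb.1]
          exact not_lt.1 hb.2
      _ ≤ ∑ b ∈ S, 2 * (U b).natDegree :=
          Finset.sum_le_sum_of_subset (Finset.filter_subset _ _)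
      _ = 2 * ∑ b ∈ S, (U b).natDegree := by rw [Finset.mul_sum]
  have h1 : A.natDegree ≤ m := le_max_left _ _
  have h2 : B.natDegree ≤ m := le_max_right _ _
  omega

/-- If G in E[X] is not a constant times a square then it has a root of odd multiplicity in some finite
extension of E (char 0). Proof. Factor G = c ∏ P_i^{m_i} into monic irreducibles (c nonzero). If all m_i are even
then G = c U^2. So some irreducible P has odd multiplicity m in G: G = P^m G', P does not divide G'.
L = AdjoinRoot P (a field, finite over E), θ the root. P is separable (char 0,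
`Irreducible.separable`), so θ is a simple root of P, and G'(θ) is not 0 (otherwise P divides G', P is
associated to minpoly). So the multiplicity of θ in G is m. -/
theorem exists_odd_root {E : Type} [Field E] [CharZero E] (G : E[X]) (hG : G ≠ 0)
    (h : ¬ ∃ (c : E) (U : E[X]), G = C c * U ^ 2) :
    ∃ (L : Type) (_ : Field L) (_ : Algebra E L) (_ : FiniteDimensional E L) (θ : L),
      Odd ((G.map (algebraMap E L)).rootMultiplicity θ) := by
  classical
  -- an irreducible factor of odd multiplicity
  obtain ⟨P, hPm, hodd⟩ : ∃ P ∈ (UniqueFactorizationMonoid.normalizedFactors G).toFinset,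
      ¬ Even ((UniqueFactorizationMonoid.normalizedFactors G).count P) := by
    by_contra hcon
    push Not at hcon
    apply h
    obtain ⟨u, hu⟩ := UniqueFactorizationMonoid.prod_normalizedFactors hG
    obtain ⟨c, hc, hcu⟩ := Polynomial.isUnit_iff.1 u.isUnit
    refine ⟨c, ∏ p ∈ (UniqueFactorizationMonoid.normalizedFactors G).toFinset,
      p ^ ((UniqueFactorizationMonoid.normalizedFactors G).count p / 2), ?_⟩
    have e1 : (UniqueFactorizationMonoid.normalizedFactors G).prod =
        (∏ p ∈ (UniqueFactorizationMonoid.normalizedFactors G).toFinset,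
          p ^ ((UniqueFactorizationMonoid.normalizedFactors G).count p / 2)) ^ 2 := by
      rw [Finset.prod_multiset_count, ← Finset.prod_pow]
      refine Finset.prod_congr rfl fun p hp => ?_
      rw [← pow_mul]
      congr 1
      obtain ⟨r, hr⟩ := hcon p hp
      omega
    rw [← e1, hcu, mul_comm]
    exact hu.symm
  rw [Multiset.mem_toFinset] at hPm
  have hPi : Irreducible P := UniqueFactorizationMonoid.irreducible_of_normalized_factor P hPm
  have hPn : normalize P = P := UniqueFactorizationMonoid.normalize_normalized_factor P hPm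
  have hmul := UniqueFactorizationMonoid.multiplicity_eq_count_normalizedFactors hPi hG
  have hfin : FiniteMultiplicity P G := finiteMultiplicity_of_emultiplicity_eq_natCast
    (UniqueFactorizationMonoid.emultiplicity_eq_count_normalizedFactors hPi hG)
  rw [hPn] at hmul
  obtain ⟨G', hGG', hPG'⟩ := hfin.exists_eq_pow_mul_and_not_dvd
  haveI : Fact (Irreducible P) := ⟨hPi⟩
  have hP0 : P ≠ 0 := hPi.ne_zero
  refine ⟨AdjoinRoot P, inferInstance, inferInstance, (AdjoinRoot.powerBasis hP0).finite,
    AdjoinRoot.root P, ?_⟩
  have hinj : Function.Injective (algebraMap E (AdjoinRoot P)) := (algebraMap E _).injective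
  have hPL0 : P.map (algebraMap E (AdjoinRoot P)) ≠ 0 := by
    rwa [Ne, Polynomial.map_eq_zero]
  have hG'0 : G' ≠ 0 := by
    rintro rfl
    exact hPG' (dvd_zero _)
  have hG'L0 : G'.map (algebraMap E (AdjoinRoot P)) ≠ 0 := by
    rwa [Ne, Polynomial.map_eq_zero]
  have hr1 : (P.map (algebraMap E (AdjoinRoot P))).rootMultiplicity (AdjoinRoot.root P) = 1 := by
    apply le_antisymm
    · exact rootMultiplicity_le_one_of_separable (hPi.separable.map) _
    · rw [Nat.succ_le_iff, rootMultiplicity_pos hPL0]
      rw [IsRoot.def, eval_map_algebraMap, AdjoinRoot.aeval_eq, AdjoinRoot.mk_self]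
  have hr2 : (G'.map (algebraMap E (AdjoinRoot P))).rootMultiplicity (AdjoinRoot.root P) = 0 := by
    apply rootMultiplicity_eq_zero
    rw [IsRoot.def, eval_map_algebraMap, AdjoinRoot.aeval_eq, AdjoinRoot.mk_eq_zero]
    exact hPG'
  have hpow : ∀ n : ℕ, ((P.map (algebraMap E (AdjoinRoot P))) ^ n).rootMultiplicity
      (AdjoinRoot.root P) = n := by
    intro n
    induction n with
    | zero =>
      rw [pow_zero]
      apply rootMultiplicity_eq_zero
      rw [IsRoot.def, eval_one]
      exact one_ne_zero
    | succ n ih =>
      rw [pow_succ, rootMultiplicity_mul (mul_ne_zero (pow_ne_zero _ hPL0) hPL0), ih, hr1]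
  have hfinal : (G.map (algebraMap E (AdjoinRoot P))).rootMultiplicity (AdjoinRoot.root P) =
      multiplicity P G := by
    conv_lhs => rw [hGG']
    rw [Polynomial.map_mul, Polynomial.map_pow,
      rootMultiplicity_mul (mul_ne_zero (pow_ne_zero _ hPL0) hG'L0), hpow, hr2, add_zero]
  rw [hfinal, hmul]
  exact Nat.not_even_iff_odd.1 hodd

end MP4369f4
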