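import Pool.Agent.Lib_MP_4369f4.Defs

/-! RES: residues and specialisation of norms. Only `Defs` is used. -/

namespace MP4369f4

open Polynomial

/-- the multiplicity of a root of `P ^ 2 - F * Q ^ 2` is even if `F` is not a square -/
theorem res_even {L : Type*} [Field L] {F : L} (hF : ¬ IsSquare F) (θ : L) :
    ∀ (n : ℕ) (P Q : L[X]), P ^ 2 - C F * Q ^ 2 ≠ 0 →
      (P ^ 2 - C F * Q ^ 2).rootMultiplicity θ = n → Even n := by
  intro n
  induction n using Nat.strong_induction_on with
  | _ n ih =>
    intro P Q hne hn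
    rcases Nat.eq_zero_or_pos n with h0 | h0
    · rw [h0]
      exact ⟨0, rfl⟩
    · have hroot : (P ^ 2 - C F * Q ^ 2).IsRoot θ := (rootMultiplicity_pos hne).1 (by omega)
      have hev : P.eval θ ^ 2 - F * Q.eval θ ^ 2 = 0 := by
        have h1 : (P ^ 2 - C F * Q ^ 2).eval θ = 0 := hroot
        rw [eval_sub, eval_mul, eval_C, eval_pow, eval_pow] at h1
        exact h1
      have hQ : Q.eval θ = 0 := by
        by_contra hQ
        apply hF
        refine ⟨P.eval θ / Q.eval θ, ?_⟩
        field_simp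
        linear_combination -hev
      have hP : P.eval θ = 0 := by
        rw [hQ] at hev
        have h1 : P.eval θ ^ 2 = 0 := by linear_combination hev
        exact pow_eq_zero_iff two_ne_zero |>.1 h1
      obtain ⟨P1, rfl⟩ := dvd_iff_isRoot.2 hP
      obtain ⟨Q1, rfl⟩ := dvd_iff_isRoot.2 hQ
      have hfac : ((X - C θ) * P1) ^ 2 - C F * ((X - C θ) * Q1) ^ 2 =
          (X - C θ) ^ 2 * (P1 ^ 2 - C F * Q1 ^ 2) := by ring
      rw [hfac] at hne hn
      have hne1 : P1 ^ 2 - C F * Q1 ^ 2 ≠ 0 := right_ne_zero_of_mul hne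
      rw [rootMultiplicity_mul hne, rootMultiplicity_X_sub_C_pow] at hn
      obtain ⟨m, hm⟩ := ih (n - 2) (by omega) P1 Q1 hne1 (by omega)
      exact ⟨m + 1, by omega⟩

/-- clearing denominators -/
theorem res_clear {E : Type*} [Field E] {f : E} {g : E[X]}
    (h : Nrm (RatFunc.C f) (algebraMap E[X] (RatFunc E) g)) :
    ∃ P Q R : E[X], R ≠ 0 ∧ P ^ 2 - C f * Q ^ 2 = g * R ^ 2 := by
  obtain ⟨p, q, hpq⟩ := h
  have hd : ∀ x : RatFunc E, algebraMap E[X] (RatFunc E) x.denom ≠ 0 := by
    intro x h0
    exact x.denom_ne_zero ((map_eq_zero_iff _ (IsFractionRing.injective E[X] (RatFunc E))).1 h0)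
  have hx : ∀ x : RatFunc E, algebraMap E[X] (RatFunc E) x.num =
      x * algebraMap E[X] (RatFunc E) x.denom := fun x =>
    (div_eq_iff (hd x)).1 (RatFunc.num_div_denom x)
  refine ⟨p.num * q.denom, q.num * p.denom, p.denom * q.denom,
    mul_ne_zero p.denom_ne_zero q.denom_ne_zero, ?_⟩
  apply IsFractionRing.injective E[X] (RatFunc E)
  simp only [map_sub, map_mul, map_pow, hx, RatFunc.algebraMap_C]
  rw [← hpq]
  ring

/-- f in E nonzero, g in E[X] nonzero, L/E an extension, θ in L a root of g of odd multiplicity. If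
g is a norm from E(X)(sqrt f) then f is a square in L.
Proof. Clear denominators: p^2 - f q^2 = g r^2 with p, q, r in E[X], r nonzero. Map to L[X]. The
multiplicity of θ in g r^2 is odd. Suppose f is not a square in L. Let m be the minimum of the
multiplicities of θ in p and q (not both are zero as g r^2 is not zero; use (X - θ)^m divides both and
not (X - θ)^(m+1)), p = (X - θ)^m p1, q = (X - θ)^m q1 with p1(θ), q1(θ) not both 0. Then
p1(θ)^2 - f q1(θ)^2 is not 0 (otherwise q1(θ) is not 0 and f = (p1(θ)/q1(θ))^2), so the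
multiplicity of θ in p^2 - f q^2 = (X - θ)^(2m) (p1^2 - f q1^2) is 2m, even: contradiction. -/
theorem isSquare_of_nrm {E L : Type*} [Field E] [Field L] [Algebra E L] {f : E} (hf : f ≠ 0)
    {g : E[X]} (hg : g ≠ 0) {θ : L}
    (hodd : Odd ((g.map (algebraMap E L)).rootMultiplicity θ))
    (h : Nrm (RatFunc.C f) (algebraMap E[X] (RatFunc E) g)) : IsSquare (algebraMap E L f) := by
  obtain ⟨P, Q, R, hR, hPQ⟩ := res_clear h
  by_contra hsq
  have hinj : Function.Injective (mapRingHom (algebraMap E L)) :=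
    map_injective _ (algebraMap E L).injective
  have hmap : (P.map (algebraMap E L)) ^ 2 - C (algebraMap E L f) * (Q.map (algebraMap E L)) ^ 2 =
      g.map (algebraMap E L) * (R.map (algebraMap E L)) ^ 2 := by
    have h1 := congrArg (fun x => x.map (algebraMap E L)) hPQ
    simp only [Polynomial.map_sub, Polynomial.map_mul, Polynomial.map_pow, map_C] at h1
    exact h1
  have hg' : g.map (algebraMap E L) ≠ 0 := by
    intro h0
    exact hg (hinj (by rw [coe_mapRingHom, h0, Polynomial.map_zero]))
  have hR' : R.map (algebraMap E L) ≠ 0 := by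
    intro h0
    exact hR (hinj (by rw [coe_mapRingHom, h0, Polynomial.map_zero]))
  have hne : g.map (algebraMap E L) * (R.map (algebraMap E L)) ^ 2 ≠ 0 :=
    mul_ne_zero hg' (pow_ne_zero 2 hR')
  have hev := res_even hsq θ _ (P.map (algebraMap E L)) (Q.map (algebraMap E L))
    (by rw [hmap]; exact hne) rfl
  rw [hmap, rootMultiplicity_mul hne, sq, rootMultiplicity_mul (mul_ne_zero hR' hR')] at hev
  rw [Nat.odd_iff] at hodd
  rw [Nat.even_iff] at hev
  omega

/-- Specialisation: f, g in E nonzero; if g is a norm from E(X)(sqrt f) then g is a norm from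
E(sqrt f). Proof. p^2 - f q^2 = g r^2 with p, q, r in E[X], r nonzero; divide p, q, r by the largest
power of X dividing all three; evaluate at 0: (p(0), q(0), r(0)) is not zero. If r(0) is not 0 divide by
it. If r(0) = 0 then p(0)^2 = f q(0)^2, q(0) is not 0 (else p(0) = 0), f is a square:
`Nrm.of_isSquare_left`. -/
theorem nrm_of_nrm_C {E : Type*} [Field E] (h2 : (2 : E) ≠ 0) {f g : E} (hf : f ≠ 0)
    (hg : g ≠ 0) (h : Nrm (RatFunc.C f : RatFunc E) (RatFunc.C g)) : Nrm f g := by
  have key : ∀ (n : ℕ) (P Q R : E[X]), R ≠ 0 → R.natDegree = n →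
      P ^ 2 - C f * Q ^ 2 = C g * R ^ 2 → Nrm f g := by
    intro n
    induction n with
    | zero =>
      intro P Q R hR hn h1
      obtain ⟨r, hr⟩ := natDegree_eq_zero.1 hn
      have hr0 : r ≠ 0 := by
        rintro rfl
        exact hR (by rw [← hr, C_0])
      have h3 := congrArg (eval 0) h1
      rw [← hr] at h3
      simp only [eval_sub, eval_mul, eval_C, eval_pow] at h3
      refine ⟨P.eval 0 / r, Q.eval 0 / r, ?_⟩
      field_simp
      linear_combination h3
    | succ n ih =>
      intro P Q R hR hn h1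
      have h3 := congrArg (eval 0) h1
      simp only [eval_sub, eval_mul, eval_C, eval_pow] at h3
      by_cases hR0 : R.eval 0 = 0
      · by_cases hQ0 : Q.eval 0 = 0
        · have hP0 : P.eval 0 = 0 := by
            rw [hQ0, hR0] at h3
            have h4 : P.eval 0 ^ 2 = 0 := by linear_combination h3
            exact pow_eq_zero_iff two_ne_zero |>.1 h4
          obtain ⟨P1, rfl⟩ := (X_dvd_iff (f := P)).2 (by rw [coeff_zero_eq_eval_zero]; exact hP0)
          obtain ⟨Q1, rfl⟩ := (X_dvd_iff (f := Q)).2 (by rw [coeff_zero_eq_eval_zero]; exact hQ0)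
          obtain ⟨R1, rfl⟩ := (X_dvd_iff (f := R)).2 (by rw [coeff_zero_eq_eval_zero]; exact hR0)
          have hR1 : R1 ≠ 0 := right_ne_zero_of_mul hR
          rw [natDegree_X_mul hR1] at hn
          refine ih P1 Q1 R1 hR1 (by omega) ?_
          have h4 : (X : E[X]) ^ 2 * (P1 ^ 2 - C f * Q1 ^ 2) = X ^ 2 * (C g * R1 ^ 2) := by
            linear_combination h1
          exact mul_left_cancel₀ (pow_ne_zero 2 X_ne_zero) h4
        · refine Nrm.of_isSquare_left h2 hf ⟨P.eval 0 / Q.eval 0, ?_⟩
          rw [hR0] at h3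
          field_simp
          linear_combination -h3
      · refine ⟨P.eval 0 / R.eval 0, Q.eval 0 / R.eval 0, ?_⟩
        field_simp
        linear_combination h3
  have h' : Nrm (RatFunc.C f) (algebraMap E[X] (RatFunc E) (C g)) := by
    rw [RatFunc.algebraMap_C]
    exact h
  obtain ⟨P, Q, R, hR, hPQ⟩ := res_clear h'
  exact key _ P Q R hR rfl hPQ

end MP4369f4
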