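import Pool.Agent.Lib_MP_4369f4.BAS
import Pool.Agent.Lib_MP_4369f4.KUM
import Pool.Agent.Lib_MP_4369f4.RES
import Pool.Agent.Lib_MP_4369f4.PEN

/-! DIC: dichotomy and definability of C(t). Imports BAS KUM RES PEN SQC as stubs. -/

namespace MP4369f4

open Polynomial

/-- Every nonzero element of E(X) is a square times a polynomial: g = p/q = (p q)/q^2. -/
theorem exists_poly_mul_sq {E : Type*} [Field E] {g : RatFunc E} (hg : g ≠ 0) :
    ∃ G : E[X], ∃ s : RatFunc E, G ≠ 0 ∧ s ≠ 0 ∧ g = algebraMap E[X] (RatFunc E) G * s ^ 2 := by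
  have hd : g.denom ≠ 0 := RatFunc.denom_ne_zero g
  have hn : g.num ≠ 0 := RatFunc.num_ne_zero hg
  have hd' : algebraMap E[X] (RatFunc E) g.denom ≠ 0 := RatFunc.algebraMap_ne_zero hd
  refine ⟨g.num * g.denom, (algebraMap _ _ g.denom)⁻¹, mul_ne_zero hn hd, inv_ne_zero hd', ?_⟩
  rw [map_mul]
  conv_lhs => rw [← RatFunc.num_div_denom g]
  field_simp

/-- For nonzero g in a tower, either only finitely many t - b are norms for g or everything from
ℂ(t) is. Induction on the tower. Base: second alternative, `nrm_ratFunc`. Step: g in RatFunc K,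
g = G s^2 (`exists_poly_mul_sq`). If G = c U^2, then for h in ℂ(t) nonzero:
Nrm (C (φ h)) g iff Nrm (C (φ h)) (C c) iff Nrm (φ h) c (`nrm_of_nrm_C` and `Nrm.map`); apply the
induction hypothesis to c. If not, `exists_odd_root` gives L, θ, and by `isSquare_of_nrm` the set of b
is contained in {b | IsSquare (algebraMap K L (φ (lin b)))}, finite by `finite_isSquare` with
`Tower.prod_lin_not_isSquare`. -/
theorem Tower.dichotomy {K : Type} [Field K] {φ : RatFunc ℂ →+* K} (hT : Tower K φ) {g : K}
    (hg : g ≠ 0) : {b : ℂ | Nrm (φ (lin b)) g}.Finite ∨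
      ∀ h : RatFunc ℂ, h ≠ 0 → Nrm (φ h) g := by
  classical
  induction hT with
  | base => exact Or.inr fun h hh => nrm_ratFunc hh hg
  | step K φ hT ih =>
    have := hT.charZero
    have h2 := hT.two_ne_zero
    obtain ⟨G, s, hG, hs, hgG⟩ := exists_poly_mul_sq hg
    by_cases hc : ∃ (c : K) (U : K[X]), G = C c * U ^ 2
    · obtain ⟨c, U, hcU⟩ := hc
      have hc0 : c ≠ 0 := by
        rintro rfl
        rw [map_zero, zero_mul] at hcU
        exact hG hcU
      have hU0 : U ≠ 0 := by
        rintro rfl
        rw [zero_pow _root_.two_ne_zero, mul_zero] at hcU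
        exact hG hcU
      have hU0' : algebraMap K[X] (RatFunc K) U ≠ 0 := RatFunc.algebraMap_ne_zero hU0
      have key : ∀ h : RatFunc ℂ, h ≠ 0 → (Nrm ((RatFunc.C.comp φ) h) g ↔ Nrm (φ h) c) := by
        intro h hh
        have hφ : φ h ≠ 0 := (map_ne_zero φ).2 hh
        rw [hgG, Nrm.mul_sq_iff hs, hcU, map_mul, map_pow, Nrm.mul_sq_iff hU0',
          RatFunc.algebraMap_C]
        exact ⟨fun h1 => nrm_of_nrm_C h2 hφ hc0 h1, fun h1 => h1.map RatFunc.C⟩
      rcases ih hc0 with h1 | h1
      · left
        refine h1.subset fun b hb => ?_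
        exact (key _ (lin_ne_zero b)).1 hb
      · right
        intro h hh
        exact (key h hh).2 (h1 h hh)
    · left
      obtain ⟨L, _, _, _, θ, hθ⟩ := exists_odd_root G hG hc
      have hfin := finite_isSquare (E := K) (L := L) h2 (fun b : ℂ => φ (lin b))
        (fun B hB => hT.prod_lin_not_isSquare hB)
      refine hfin.subset fun b hb => ?_
      have hb1 : Nrm ((RatFunc.C.comp φ) (lin b)) g := hb
      rw [hgG, Nrm.mul_sq_iff hs] at hb1
      exact isSquare_of_nrm ((map_ne_zero φ).2 (lin_ne_zero b)) hG hθ hb1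

/-- Elements outside ℂ(t) are detected by symbols. Induction on the tower. Base: every x is in the
range. Step: x in RatFunc K. If x = C x0, x0 in K not in the range of φ: induction hypothesis and
`nrm_of_nrm_C` (x0 - φ (C b) is not 0 as x0 is not in the range). If x is not in the range of
RatFunc.C: A = num, B = denom, coprime, not both constant; take S = the images of 5 distinct complex
constants in K; `pencil` gives b such that A - b B is not c U^2; then G = (A - b B) B is not c U^2
either ((A - b B), B coprime: if the product of two coprime polynomials is c U^2 then each factor is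
a constant times a square - factor multiplicities), G is not 0, `exists_odd_root` gives L, θ;
x - b = G (1/B)^2; choose a with φ(t - a) not a square in L (`finite_isSquare`, ℂ is infinite); then
`isSquare_of_nrm` shows that Nrm (φ (t - a)) (x - b) fails. -/
theorem Tower.exists_not_nrm {K : Type} [Field K] {φ : RatFunc ℂ →+* K} (hT : Tower K φ) (x : K)
    (hx : ∀ y, x ≠ φ y) : ∃ a b : ℂ, ¬ Nrm (φ (lin a)) (x - φ (RatFunc.C b)) := by
  classical
  induction hT with
  | base => exact absurd rfl (hx x)
  | step K φ hT ih =>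
    have := hT.charZero
    have h2 := hT.two_ne_zero
    by_cases hxC : ∃ x0 : K, x = RatFunc.C x0
    · obtain ⟨x0, rfl⟩ := hxC
      have hx0 : ∀ y, x0 ≠ φ y := by
        intro y hy
        exact hx y (by rw [hy]; rfl)
      obtain ⟨a, b, hab⟩ := ih x0 hx0
      refine ⟨a, b, fun h => hab ?_⟩
      have h1 : RatFunc.C x0 - (RatFunc.C.comp φ) (RatFunc.C b) =
          RatFunc.C (x0 - φ (RatFunc.C b)) := by
        rw [map_sub]; rfl
      rw [h1] at h
      exact nrm_of_nrm_C h2 ((map_ne_zero φ).2 (lin_ne_zero a)) (sub_ne_zero.2 (hx0 _)) h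
    · have hB0 : x.denom ≠ 0 := RatFunc.denom_ne_zero x
      have hnc : ¬ (x.num.natDegree = 0 ∧ x.denom.natDegree = 0) := by
        rintro ⟨hA, hB⟩
        apply hxC
        have hB1 : x.denom = 1 := (Polynomial.Monic.natDegree_eq_zero (RatFunc.monic_denom x)).1 hB
        refine ⟨x.num.coeff 0, ?_⟩
        conv_lhs => rw [← RatFunc.num_div_denom x]
        rw [hB1, map_one, div_one]
        conv_lhs => rw [Polynomial.eq_C_of_natDegree_eq_zero hA]
        exact RatFunc.algebraMap_C _
      have hinj : Function.Injective (fun i : ℕ => φ (RatFunc.C (i : ℂ))) := by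
        intro i j hij
        have h3 := φ.injective hij
        have h4 := (RatFunc.C : ℂ →+* RatFunc ℂ).injective h3
        exact_mod_cast h4
      obtain ⟨b', hb'S, hb'⟩ := pencil (RatFunc.isCoprime_num_denom x) hnc
        ((Finset.range 5).image (fun i : ℕ => φ (RatFunc.C (i : ℂ)))) (by
          rw [Finset.card_image_of_injective _ hinj, Finset.card_range])
      obtain ⟨i, _, hi⟩ := Finset.mem_image.1 hb'S
      have hP0 : x.num - C b' * x.denom ≠ 0 := by
        intro h
        exact hb' ⟨0, 0, by rw [h, map_zero, zero_mul]⟩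
      have hcop : IsCoprime (x.num - C b' * x.denom) x.denom := by
        have h3 := (RatFunc.isCoprime_num_denom x)
        rw [sub_eq_add_neg, ← neg_mul, ← mul_comm x.denom]
        exact h3.add_mul_left_left _
      have hGn : ¬ ∃ (c : K) (U : K[X]), (x.num - C b' * x.denom) * x.denom = C c * U ^ 2 := by
        rintro ⟨c, U, hcU⟩
        have hc0 : c ≠ 0 := by
          rintro rfl
          rw [map_zero, zero_mul] at hcU
          exact mul_ne_zero hP0 hB0 hcU
        have hu : IsUnit (C c⁻¹ : K[X]) := Polynomial.isUnit_C.2 (isUnit_iff_ne_zero.2 (inv_ne_zero hc0))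
        have h3 : (C c⁻¹ * (x.num - C b' * x.denom)) * x.denom = U ^ 2 := by
          rw [mul_assoc, hcU, ← mul_assoc, ← C_mul, inv_mul_cancel₀ hc0, C_1, one_mul]
        have h4 : IsCoprime (C c⁻¹ * (x.num - C b' * x.denom)) x.denom :=
          (isCoprime_mul_unit_left_left hu _ _).2 hcop
        obtain ⟨d, hd⟩ := exists_associated_pow_of_mul_eq_pow' h4 h3
        obtain ⟨u, hu'⟩ := hd
        obtain ⟨e, he, heu⟩ := Polynomial.isUnit_iff.1 u.isUnit
        refine hb' ⟨c * e, d, ?_⟩
        rw [← heu] at hu'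
        have h5 : C c * (C c⁻¹ * (x.num - C b' * x.denom)) = x.num - C b' * x.denom := by
          rw [← mul_assoc, ← C_mul, mul_inv_cancel₀ hc0, C_1, one_mul]
        rw [← h5, ← hu', C_mul]
        ring
      have hG0 : (x.num - C b' * x.denom) * x.denom ≠ 0 := mul_ne_zero hP0 hB0
      obtain ⟨L, _, _, _, θ, hθ⟩ := exists_odd_root _ hG0 hGn
      have hfin := finite_isSquare (E := K) (L := L) h2 (fun b : ℂ => φ (lin b))
        (fun B hB => hT.prod_lin_not_isSquare hB)
      obtain ⟨a, ha⟩ := hfin.infinite_compl.nonempty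
      refine ⟨a, i, fun h => ha ?_⟩
      have hd' : algebraMap K[X] (RatFunc K) x.denom ≠ 0 := RatFunc.algebraMap_ne_zero hB0
      have h6 : x - (RatFunc.C.comp φ) (RatFunc.C (i : ℂ)) =
          algebraMap K[X] (RatFunc K) ((x.num - C b' * x.denom) * x.denom) *
            ((algebraMap K[X] (RatFunc K) x.denom)⁻¹) ^ 2 := by
        have h7 : (RatFunc.C.comp φ) (RatFunc.C (i : ℂ)) = RatFunc.C b' := by
          rw [← hi]; rfl
        rw [h7, map_mul, map_sub, map_mul, RatFunc.algebraMap_C]
        conv_lhs => rw [← RatFunc.num_div_denom x]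
        field_simp
      rw [h6, Nrm.mul_sq_iff (inv_ne_zero hd')] at h
      exact isSquare_of_nrm ((map_ne_zero φ).2 (lin_ne_zero a)) hG0 hθ h

/-- So ℂ(t) is defined by symbols: x is in the range of φ iff Nrm (t - a) (x - b) for all constants. -/
theorem Tower.range_iff {K : Type} [Field K] {φ : RatFunc ℂ →+* K} (hT : Tower K φ) (x : K) :
    (∀ a b : ℂ, Nrm (φ (lin a)) (x - φ (RatFunc.C b))) ↔ ∃ y, x = φ y := by
  constructor
  · intro h
    by_contra hx
    push Not at hx
    obtain ⟨a, b, hab⟩ := hT.exists_not_nrm x hx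
    exact hab (h a b)
  · rintro ⟨y, rfl⟩ a b
    rw [← map_sub]
    by_cases h0 : y - RatFunc.C b = 0
    · rw [h0, map_zero]; exact Nrm.zero _
    · exact (nrm_ratFunc (lin_ne_zero a) h0).map φ

end MP4369f4
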