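import Mathlib

/-!
MP_4369f4_lc: for n >= 2 the rings C[t_i] are first-order definable in C(t_1,...,t_n).

Notation: for a field K and f, g in K, `Nrm f g` says that g is a norm from K(sqrt f), i.e. the
quaternion symbol (f,g) vanishes (f, g nonzero, characteristic not 2).
-/

namespace MP4369f4

open Polynomial

/-- `Nrm f g`: g = p^2 - f q^2 for some p, q in K. -/
def Nrm {K : Type*} [Field K] (f g : K) : Prop := ∃ p q : K, p ^ 2 - f * q ^ 2 = g

/-- The element t - b of C(t). -/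
noncomputable def lin (b : ℂ) : RatFunc ℂ := RatFunc.X - RatFunc.C b

/-- `Tower K φ`: the pair (K, φ : C(t) -> K) is obtained from (C(t), id) by adjoining finitely
many indeterminates one after the other. -/
inductive Tower : (K : Type) → [Field K] → (RatFunc ℂ →+* K) → Prop
  | base : Tower (RatFunc ℂ) (RingHom.id _)
  | step (K : Type) [Field K] (φ : RatFunc ℂ →+* K) :
      Tower K φ → Tower (RatFunc K) ((RatFunc.C : K →+* RatFunc K).comp φ)

section basic

variable {K : Type*} [Field K]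

theorem Nrm.mul {f g g' : K} (h : Nrm f g) (h' : Nrm f g') : Nrm f (g * g') := by
  obtain ⟨p, q, rfl⟩ := h
  obtain ⟨p', q', rfl⟩ := h'
  exact ⟨p * p' + f * q * q', p * q' + q * p', by ring⟩

theorem Nrm.sq (f s : K) : Nrm f (s ^ 2) := ⟨s, 0, by ring⟩

theorem Nrm.zero (f : K) : Nrm f 0 := ⟨0, 0, by ring⟩

theorem Nrm.one (f : K) : Nrm f 1 := ⟨1, 0, by ring⟩

theorem Nrm.inv {f g : K} (h : Nrm f g) : Nrm f g⁻¹ := by
  by_cases hg : g = 0
  · subst hg; simpa using Nrm.zero f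
  have : g⁻¹ = g * g⁻¹ ^ 2 := by field_simp
  rw [this]
  exact h.mul (Nrm.sq f _)

theorem Nrm.mul_sq_iff {f g s : K} (hs : s ≠ 0) : Nrm f (g * s ^ 2) ↔ Nrm f g := by
  constructor
  · intro h
    have : g = (g * s ^ 2) * s⁻¹ ^ 2 := by field_simp
    rw [this]
    exact h.mul (Nrm.sq f _)
  · intro h
    exact h.mul (Nrm.sq f _)

theorem Nrm.of_isSquare_left {f g : K} (h2 : (2 : K) ≠ 0) (hf : f ≠ 0) (hsq : IsSquare f) :
    Nrm f g := by
  obtain ⟨s, rfl⟩ := hsq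
  have hs : s ≠ 0 := by rintro rfl; simp at hf
  refine ⟨(g + 1) / 2, (g - 1) / (2 * s), ?_⟩
  field_simp
  ring

theorem Nrm.of_isSquare_right {f g : K} (hsq : IsSquare g) : Nrm f g := by
  obtain ⟨s, rfl⟩ := hsq
  exact ⟨s, 0, by ring⟩

theorem Nrm.symm {f g : K} (h2 : (2 : K) ≠ 0) (hf : f ≠ 0) (hg : g ≠ 0) (h : Nrm f g) :
    Nrm g f := by
  obtain ⟨p, q, h⟩ := h
  by_cases hq : q = 0
  · subst hq
    have hg' : g = p * p := by rw [← h]; ring
    exact Nrm.of_isSquare_left h2 hg ⟨p, hg'⟩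
  · refine ⟨p / q, 1 / q, ?_⟩
    field_simp
    rw [← h]; ring

theorem Nrm.mul_left {f f' g : K} (h2 : (2 : K) ≠ 0) (hf : f ≠ 0) (hf' : f' ≠ 0) (hg : g ≠ 0)
    (h : Nrm f g) (h' : Nrm f' g) : Nrm (f * f') g :=
  ((h.symm h2 hf hg).mul (h'.symm h2 hf' hg)).symm h2 hg (mul_ne_zero hf hf')

theorem Nrm.sq_mul_left_iff {f g s : K} (hs : s ≠ 0) : Nrm (f * s ^ 2) g ↔ Nrm f g := by
  constructor
  · rintro ⟨p, q, h⟩
    exact ⟨p, s * q, by rw [← h]; ring⟩
  · rintro ⟨p, q, h⟩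
    exact ⟨p, q / s, by rw [← h]; field_simp⟩

theorem Nrm.map {L : Type*} [Field L] (φ : K →+* L) {f g : K} (h : Nrm f g) :
    Nrm (φ f) (φ g) := by
  obtain ⟨p, q, rfl⟩ := h
  exact ⟨φ p, φ q, by simp⟩

end basic

theorem Tower.charZero {K : Type} [Field K] {φ : RatFunc ℂ →+* K} (_ : Tower K φ) : CharZero K :=
  charZero_of_injective_ringHom φ.injective

theorem Tower.two_ne_zero {K : Type} [Field K] {φ : RatFunc ℂ →+* K} (h : Tower K φ) :
    (2 : K) ≠ 0 := by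
  haveI := h.charZero
  exact _root_.two_ne_zero

theorem lin_ne_zero (b : ℂ) : lin b ≠ 0 := by
  unfold lin
  intro h
  have : (RatFunc.X : RatFunc ℂ) = RatFunc.C b := sub_eq_zero.mp h
  have h1 : algebraMap ℂ[X] (RatFunc ℂ) (X - Polynomial.C b) = 0 := by
    rw [map_sub, RatFunc.algebraMap_X, RatFunc.algebraMap_C, h]
  have h2 := (map_eq_zero_iff _ (IsFractionRing.injective ℂ[X] (RatFunc ℂ))).mp h1
  exact X_sub_C_ne_zero b h2

end MP4369f4
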