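import Pool.Agent.Lib_MP_4369f4.Defs

/-!
The predicates (over an arbitrary field K with a distinguished element t) which define the constants,
ℂ(t), ℂ[t] and ℕ in a field RatFunc K, K a tower.
-/

namespace MP4369f4

variable {K : Type*} [Field K]

/-- x is a constant: the Fermat quartic has a point with first coordinate x. -/
def Cst (x : K) : Prop := ∃ y : K, x ^ 4 + y ^ 4 = 1

/-- x lies in ℂ(t). -/
def InF (t x : K) : Prop := ∀ a b : K, Cst a → Cst b → Nrm (t - a) (x - b)

/-- f (in ℂ(t)) has even order at t = a. -/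
def Ev (t a f : K) : Prop :=
  ∃ g : K, g ≠ 0 ∧ Nrm f g ∧ ¬ Nrm (t - a) g ∧
    ∀ g' : K, g' ≠ 0 → (∀ b : K, Cst b → Nrm (t - b) g → Nrm (t - b) g') →
      ∀ h : K, InF t h → h ≠ 0 → Nrm h g → Nrm h g'

/-- x lies in ℂ[t]. -/
def PolyP (t x : K) : Prop := InF t x ∧ ∀ a : K, Cst a → Ev t a (1 + (t - a) * x ^ 2)

/-- f lies in ℂ[t] and vanishes at t = r. -/
def RootP (t f r : K) : Prop := ∃ g : K, PolyP t g ∧ f = (t - r) * g

/-- x is a natural number: some nonzero f in ℂ[t] vanishes at 0, and for every constant root r of f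
different from x also r + 1 is a root. -/
def NatP (t x : K) : Prop :=
  Cst x ∧ ∃ f : K, f ≠ 0 ∧ RootP t f 0 ∧ ∀ r : K, Cst r → r ≠ x → RootP t f r → RootP t f (r + 1)

end MP4369f4
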