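import Pool.Agent.Lib_MP_4369f4.Defs

/-! FER: Fermat quartic over towers. Only `Defs` is used. -/

namespace MP4369f4

open Polynomial

private theorem pow4_one {E : Type*} [Field E] {y : RatFunc E} (h : y ^ 4 = 1) :
    ∃ b : E, y = RatFunc.C b := by
  obtain ⟨p, hp⟩ := IsIntegrallyClosed.exists_algebraMap_eq_of_isIntegral_pow (R := E[X])
    (x := y) (n := 4) (by norm_num) (by rw [h]; exact isIntegral_one)
  have h1 : p ^ 4 = 1 := by
    apply IsFractionRing.injective E[X] (RatFunc E)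
    rw [map_pow, hp, h, map_one]
  have h2 : IsUnit p := IsUnit.of_pow_eq_one h1 (by norm_num)
  obtain ⟨b, -, hb⟩ := Polynomial.isUnit_iff.1 h2
  refine ⟨b, ?_⟩
  rw [← hp, ← hb, RatFunc.algebraMap_C]

private theorem unit_quot {E : Type*} [Field E] {a c d : E[X]} (ha : IsUnit a) (hc : IsUnit c)
    (hd : d ≠ 0) : ∃ e : E, algebraMap E[X] (RatFunc E) (a * d)
      / algebraMap E[X] (RatFunc E) (c * d) = RatFunc.C e := by
  obtain ⟨a', ha', rfl⟩ := Polynomial.isUnit_iff.1 ha
  obtain ⟨c', hc', rfl⟩ := Polynomial.isUnit_iff.1 hc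
  have hd' : algebraMap E[X] (RatFunc E) d ≠ 0 := by
    rw [Ne, map_eq_zero_iff _ (IsFractionRing.injective E[X] (RatFunc E))]
    exact hd
  refine ⟨a' / c', ?_⟩
  rw [map_mul, map_mul, RatFunc.algebraMap_C, RatFunc.algebraMap_C, map_div₀,
    mul_div_mul_right _ _ hd']

/-- Let x, y in E(X) with x^4 + y^4 = 1. Write x = a/c, y = b/c with a, b, c polynomials without
common factor (c nonzero; e.g. c = x.denom * y.denom and divide a, b, c by the gcd of the three),
so a^4 + b^4 = c^4, and a, b are coprime (a common irreducible factor of a, b divides c). If a = 0 or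
b = 0 then (x = 0, y^4 = 1) or conversely: a root of Y^4 = 1 in E(X) is constant (y is integral over
E, or: y = u/v coprime with u^4 = v^4 so u, v are units). Otherwise `Polynomial.flt` (n = 4) gives
natDegree 0 for a, b, c. -/
theorem fermat_step {E : Type*} [Field E] [CharZero E] {x y : RatFunc E}
    (h : x ^ 4 + y ^ 4 = 1) : ∃ a b : E, x = RatFunc.C a ∧ y = RatFunc.C b := by
  by_cases hx : x = 0
  · subst hx
    obtain ⟨b, hb⟩ := pow4_one (E := E) (y := y) (by rw [← h]; ring)
    exact ⟨0, b, by simp, hb⟩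
  by_cases hy : y = 0
  · subst hy
    obtain ⟨b, hb⟩ := pow4_one (E := E) (y := x) (by rw [← h]; ring)
    exact ⟨b, 0, hb, by simp⟩
  have hxd : x.denom ≠ 0 := RatFunc.denom_ne_zero x
  have hyd : y.denom ≠ 0 := RatFunc.denom_ne_zero y
  have hxn : x.num ≠ 0 := RatFunc.num_ne_zero hx
  have hyn : y.num ≠ 0 := RatFunc.num_ne_zero hy
  have hxd' : algebraMap E[X] (RatFunc E) x.denom ≠ 0 := by
    rw [Ne, map_eq_zero_iff _ (IsFractionRing.injective E[X] (RatFunc E))]
    exact hxd
  have hyd' : algebraMap E[X] (RatFunc E) y.denom ≠ 0 := by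
    rw [Ne, map_eq_zero_iff _ (IsFractionRing.injective E[X] (RatFunc E))]
    exact hyd
  have ex : x = algebraMap E[X] (RatFunc E) (x.num * y.denom)
      / algebraMap E[X] (RatFunc E) (x.denom * y.denom) := by
    rw [map_mul, map_mul, mul_div_mul_right _ _ hyd', RatFunc.num_div_denom]
  have ey : y = algebraMap E[X] (RatFunc E) (y.num * x.denom)
      / algebraMap E[X] (RatFunc E) (x.denom * y.denom) := by
    rw [map_mul, map_mul, mul_comm (algebraMap E[X] (RatFunc E) x.denom),
      mul_div_mul_right _ _ hxd', RatFunc.num_div_denom]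
  have heq : (x.num * y.denom) ^ 4 + (y.num * x.denom) ^ 4 = (x.denom * y.denom) ^ 4 := by
    apply IsFractionRing.injective E[X] (RatFunc E)
    have hc : algebraMap E[X] (RatFunc E) (x.denom * y.denom) ≠ 0 := by
      rw [map_mul]
      exact mul_ne_zero hxd' hyd'
    have key : ∀ A B C : RatFunc E, C ≠ 0 → x = A / C → y = B / C → A ^ 4 + B ^ 4 = C ^ 4 := by
      intro A B C hC hA hB
      rw [hA, hB, div_pow, div_pow, ← add_div, div_eq_one_iff_eq (pow_ne_zero 4 hC)] at h
      exact h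
    rw [map_add, map_pow, map_pow, map_pow]
    exact key _ _ _ hc ex ey
  obtain ⟨d, a', b', c', ⟨h1, h2, h3⟩, ha, hb, hc⟩ :=
    fermatLastTheoremWith'_polynomial (k := E) (n := 4) (by norm_num) (by norm_num)
      (x.num * y.denom) (y.num * x.denom) (x.denom * y.denom)
      (mul_ne_zero hxn hyd) (mul_ne_zero hyn hxd) (mul_ne_zero hxd hyd) heq
  have hd : d ≠ 0 := by
    rintro rfl
    rw [mul_zero] at h3
    exact (mul_ne_zero hxd hyd) h3
  obtain ⟨e, he⟩ := unit_quot ha hc hd
  obtain ⟨f, hf⟩ := unit_quot hb hc hd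
  refine ⟨e, f, ?_, ?_⟩
  · rw [← he, ← h1, ← h3]
    exact ex
  · rw [← hf, ← h2, ← h3]
    exact ey

/-- Induction on the tower: base case `fermat_step` over ℂ (RatFunc ℂ, φ = id); step: x = C a,
y = C b with a^4 + b^4 = 1 in K (`RatFunc.C` is injective), induction hypothesis for a. -/
theorem Tower.fermat {K : Type} [Field K] {φ : RatFunc ℂ →+* K} (hT : Tower K φ) {x y : K}
    (h : x ^ 4 + y ^ 4 = 1) : ∃ c : ℂ, x = φ (RatFunc.C c) := by
  induction hT with
  | base =>
    obtain ⟨a, b, ha, -⟩ := fermat_step h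
    exact ⟨a, ha⟩
  | step K φ hT ih =>
    have := hT.charZero
    obtain ⟨a, b, ha, hb⟩ := fermat_step h
    have h1 : a ^ 4 + b ^ 4 = 1 := by
      apply (RatFunc.C : K →+* RatFunc K).injective
      rw [map_add, map_pow, map_pow, ← ha, ← hb, h, map_one]
    obtain ⟨c, hc⟩ := ih h1
    refine ⟨c, ?_⟩
    rw [ha, hc]
    rfl

/-- The constants are exactly the x such that x^4 + y^4 = 1 for some y (-> of the iff: `Tower.fermat`;
<-: choose a fourth root of 1 - c^4 in ℂ, `IsAlgClosed.exists_pow_nat_eq`). -/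
theorem Tower.const_iff {K : Type} [Field K] {φ : RatFunc ℂ →+* K} (hT : Tower K φ) (x : K) :
    (∃ y : K, x ^ 4 + y ^ 4 = 1) ↔ ∃ c : ℂ, x = φ (RatFunc.C c) := by
  constructor
  · rintro ⟨y, hy⟩
    exact hT.fermat hy
  · rintro ⟨c, rfl⟩
    obtain ⟨d, hd⟩ := IsAlgClosed.exists_pow_nat_eq (1 - c ^ 4) (n := 4) (by norm_num)
    refine ⟨φ (RatFunc.C d), ?_⟩
    rw [← map_pow, ← map_pow, ← map_pow, ← map_pow, ← map_add, ← map_add, hd]
    rw [add_sub_cancel, map_one, map_one]

end MP4369f4
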