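import Pool.Agent.Lib_MP_4369f4.FDEF

/-! FORM: the predicates of FDEF are first-order. Only `FDEF` is used. -/

namespace MP4369f4

open FirstOrder

/-- A relation between n elements which is defined, uniformly in all fields, by one formula of the
language of rings. -/
def Fo (n : ℕ) (R : ∀ (K : Type) [Field K], (Fin n → K) → Prop) : Prop :=
  ∃ Φ : Language.ring.Formula (Fin n), ∀ (K : Type) [Field K] [Ring.CompatibleRing K]
    (v : Fin n → K), Φ.Realize v ↔ R K v

/-- Relations defined by bounded formulas without free variables. -/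
private def FB (n : ℕ) (R : ∀ (K : Type) [Field K], (Fin n → K) → Prop) : Prop :=
  ∃ Φ : Language.ring.BoundedFormula Empty n, ∀ (K : Type) [Field K] [Ring.CompatibleRing K]
    (v : Fin n → K), Φ.Realize (default : Empty → K) v ↔ R K v

/-- Functions defined by terms. -/
private def TB (n : ℕ) (f : ∀ (K : Type) [Field K], (Fin n → K) → K) : Prop :=
  ∃ t : Language.ring.Term (Empty ⊕ Fin n), ∀ (K : Type) [Field K] [Ring.CompatibleRing K]
    (v : Fin n → K), t.realize (Sum.elim (default : Empty → K) v) = f K v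

private theorem TB.var {n : ℕ} (i : Fin n) : TB n (fun _ _ v => v i) :=
  ⟨Language.Term.var (Sum.inr i), fun _ _ _ _ => rfl⟩

private theorem TB.lift {n : ℕ} {f : ∀ (K : Type) [Field K], (Fin n → K) → K} (h : TB n f) :
    TB (n + 1) (fun K _ w => f K (Fin.init w)) := by
  obtain ⟨t, ht⟩ := h
  refine ⟨t.relabel (Sum.map id Fin.castSucc), fun K _ _ w => ?_⟩
  rw [Language.Term.realize_relabel, Sum.elim_comp_map]
  exact ht K (Fin.init w)

private theorem TB.add {n : ℕ} {f g : ∀ (K : Type) [Field K], (Fin n → K) → K} (h : TB n f)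
    (h' : TB n g) : TB n (fun K _ w => f K w + g K w) := by
  obtain ⟨t, ht⟩ := h
  obtain ⟨s, hs⟩ := h'
  exact ⟨t + s, fun K _ _ w => by rw [Ring.realize_add, ht, hs]⟩

private theorem TB.mul {n : ℕ} {f g : ∀ (K : Type) [Field K], (Fin n → K) → K} (h : TB n f)
    (h' : TB n g) : TB n (fun K _ w => f K w * g K w) := by
  obtain ⟨t, ht⟩ := h
  obtain ⟨s, hs⟩ := h'
  exact ⟨t * s, fun K _ _ w => by rw [Ring.realize_mul, ht, hs]⟩

private theorem TB.neg {n : ℕ} {f : ∀ (K : Type) [Field K], (Fin n → K) → K} (h : TB n f) :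
    TB n (fun K _ w => - f K w) := by
  obtain ⟨t, ht⟩ := h
  exact ⟨-t, fun K _ _ w => by rw [Ring.realize_neg, ht]⟩

private theorem TB.sub {n : ℕ} {f g : ∀ (K : Type) [Field K], (Fin n → K) → K} (h : TB n f)
    (h' : TB n g) : TB n (fun K _ w => f K w - g K w) := by
  simp only [sub_eq_add_neg]
  exact h.add h'.neg

private theorem TB.one (n : ℕ) : TB n (fun _ _ _ => 1) :=
  ⟨1, fun K _ _ w => by rw [Ring.realize_one]⟩

private theorem TB.zero (n : ℕ) : TB n (fun _ _ _ => 0) :=
  ⟨0, fun K _ _ w => by rw [Ring.realize_zero]⟩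

private theorem TB.sq {n : ℕ} {f : ∀ (K : Type) [Field K], (Fin n → K) → K} (h : TB n f) :
    TB n (fun K _ w => f K w ^ 2) := by
  simp only [pow_two]
  exact h.mul h

private theorem TB.pow4 {n : ℕ} {f : ∀ (K : Type) [Field K], (Fin n → K) → K} (h : TB n f) :
    TB n (fun K _ w => f K w ^ 4) := by
  have : ∀ (K : Type) [Field K] (x : K), x ^ 4 = (x ^ 2) ^ 2 := by intros; ring
  simp only [this]
  exact h.sq.sq

private theorem FB.eq {n : ℕ} {f g : ∀ (K : Type) [Field K], (Fin n → K) → K} (h : TB n f)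
    (h' : TB n g) : FB n (fun K _ w => f K w = g K w) := by
  obtain ⟨t, ht⟩ := h
  obtain ⟨s, hs⟩ := h'
  refine ⟨Language.Term.bdEqual t s, fun K _ _ w => ?_⟩
  rw [Language.BoundedFormula.realize_bdEqual, ht, hs]

private theorem FB.and {n : ℕ} {R S : ∀ (K : Type) [Field K], (Fin n → K) → Prop} (h : FB n R)
    (h' : FB n S) : FB n (fun K _ w => R K w ∧ S K w) := by
  obtain ⟨t, ht⟩ := h
  obtain ⟨s, hs⟩ := h'
  refine ⟨t ⊓ s, fun K _ _ w => ?_⟩
  rw [Language.BoundedFormula.realize_inf, ht, hs]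

private theorem FB.imp {n : ℕ} {R S : ∀ (K : Type) [Field K], (Fin n → K) → Prop} (h : FB n R)
    (h' : FB n S) : FB n (fun K _ w => R K w → S K w) := by
  obtain ⟨t, ht⟩ := h
  obtain ⟨s, hs⟩ := h'
  refine ⟨t.imp s, fun K _ _ w => ?_⟩
  rw [Language.BoundedFormula.realize_imp, ht, hs]

private theorem FB.not {n : ℕ} {R : ∀ (K : Type) [Field K], (Fin n → K) → Prop} (h : FB n R) :
    FB n (fun K _ w => ¬ R K w) := by
  obtain ⟨t, ht⟩ := h
  refine ⟨t.not, fun K _ _ w => ?_⟩
  rw [Language.BoundedFormula.realize_not, ht]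

private theorem FB.ex {n : ℕ} {R : ∀ (K : Type) [Field K], (Fin n → K) → K → Prop}
    (h : FB (n + 1) (fun K _ w => R K (Fin.init w) (w (Fin.last n)))) :
    FB n (fun K _ w => ∃ x, R K w x) := by
  obtain ⟨t, ht⟩ := h
  refine ⟨t.ex, fun K _ _ w => ?_⟩
  rw [Language.BoundedFormula.realize_ex]
  refine exists_congr fun x => ?_
  rw [ht]
  have h1 : Fin.init (α := fun _ => K) (Fin.snoc (α := fun _ => K) w x) = w :=
    Fin.init_snoc (α := fun _ => K) x w
  have h2 : Fin.snoc (α := fun _ => K) w x (Fin.last n) = x :=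
    Fin.snoc_last (α := fun _ => K) x w
  show R K (Fin.init (α := fun _ => K) (Fin.snoc (α := fun _ => K) w x))
    (Fin.snoc (α := fun _ => K) w x (Fin.last n)) ↔ R K w x
  rw [h1, h2]

private theorem FB.all {n : ℕ} {R : ∀ (K : Type) [Field K], (Fin n → K) → K → Prop}
    (h : FB (n + 1) (fun K _ w => R K (Fin.init w) (w (Fin.last n)))) :
    FB n (fun K _ w => ∀ x, R K w x) := by
  obtain ⟨t, ht⟩ := h
  refine ⟨t.all, fun K _ _ w => ?_⟩
  rw [Language.BoundedFormula.realize_all]
  refine forall_congr' fun x => ?_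
  rw [ht]
  have h1 : Fin.init (α := fun _ => K) (Fin.snoc (α := fun _ => K) w x) = w :=
    Fin.init_snoc (α := fun _ => K) x w
  have h2 : Fin.snoc (α := fun _ => K) w x (Fin.last n) = x :=
    Fin.snoc_last (α := fun _ => K) x w
  show R K (Fin.init (α := fun _ => K) (Fin.snoc (α := fun _ => K) w x))
    (Fin.snoc (α := fun _ => K) w x (Fin.last n)) ↔ R K w x
  rw [h1, h2]

private theorem FB.fo {n : ℕ} {R : ∀ (K : Type) [Field K], (Fin n → K) → Prop} (h : FB n R) :
    Fo n R := by
  obtain ⟨t, ht⟩ := h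
  refine ⟨(t.toFormula).relabel (Sum.elim Empty.elim id), fun K _ _ w => ?_⟩
  rw [Language.Formula.realize_relabel, Language.BoundedFormula.realize_toFormula, ← ht]
  have h1 : ((w ∘ Sum.elim Empty.elim id) ∘ Sum.inl : Empty → K) = default :=
    Subsingleton.elim _ _
  have h2 : ((w ∘ (Sum.elim Empty.elim id : Empty ⊕ Fin n → Fin n)) ∘ Sum.inr : Fin n → K) = w :=
    rfl
  rw [h1, h2]

private theorem FB.nrm {n : ℕ} {f g : ∀ (K : Type) [Field K], (Fin n → K) → K} (h : TB n f)
    (h' : TB n g) : FB n (fun K _ w => Nrm (f K w) (g K w)) := by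
  unfold Nrm
  refine FB.ex (FB.ex ?_)
  exact FB.eq ((((TB.var _).lift).sq).sub ((h.lift.lift).mul (TB.var _).sq)) h'.lift.lift

private theorem FB.cst {n : ℕ} {f : ∀ (K : Type) [Field K], (Fin n → K) → K} (h : TB n f) :
    FB n (fun K _ w => Cst (f K w)) := by
  unfold Cst
  refine FB.ex ?_
  exact FB.eq (h.lift.pow4.add (TB.var _).pow4) (TB.one _)

private theorem FB.inF {n : ℕ} {f g : ∀ (K : Type) [Field K], (Fin n → K) → K} (h : TB n f)
    (h' : TB n g) : FB n (fun K _ w => InF (f K w) (g K w)) := by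
  unfold InF
  refine FB.all (FB.all ?_)
  exact FB.imp (FB.cst (TB.var _).lift) (FB.imp (FB.cst (TB.var _))
    (FB.nrm (h.lift.lift.sub (TB.var _).lift) (h'.lift.lift.sub (TB.var _))))

private theorem FB.ev {n : ℕ} {f g e : ∀ (K : Type) [Field K], (Fin n → K) → K} (h : TB n f)
    (h' : TB n g) (h'' : TB n e) : FB n (fun K _ w => Ev (f K w) (g K w) (e K w)) := by
  unfold Ev
  refine FB.ex ?_
  refine FB.and (FB.not (FB.eq (TB.var _) (TB.zero _))) (FB.and (FB.nrm h''.lift (TB.var _))
    (FB.and (FB.not (FB.nrm (h.lift.sub h'.lift) (TB.var _))) ?_))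
  refine FB.all (FB.imp (FB.not (FB.eq (TB.var _) (TB.zero _))) (FB.imp (FB.all ?_) (FB.all ?_)))
  · exact FB.imp (FB.cst (TB.var _)) (FB.imp (FB.nrm (h.lift.lift.lift.sub (TB.var _))
      (TB.var _).lift.lift) (FB.nrm (h.lift.lift.lift.sub (TB.var _)) (TB.var _).lift))
  · exact FB.imp (FB.inF h.lift.lift.lift (TB.var _)) (FB.imp (FB.not (FB.eq (TB.var _)
      (TB.zero _))) (FB.imp (FB.nrm (TB.var _) (TB.var _).lift.lift)
        (FB.nrm (TB.var _) (TB.var _).lift)))

private theorem FB.polyP {n : ℕ} {f g : ∀ (K : Type) [Field K], (Fin n → K) → K} (h : TB n f)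
    (h' : TB n g) : FB n (fun K _ w => PolyP (f K w) (g K w)) := by
  unfold PolyP
  refine FB.and (FB.inF h h') (FB.all (FB.imp (FB.cst (TB.var _)) ?_))
  exact FB.ev h.lift (TB.var _) ((TB.one _).add ((h.lift.sub (TB.var _)).mul h'.lift.sq))

private theorem FB.rootP {n : ℕ} {f g e : ∀ (K : Type) [Field K], (Fin n → K) → K} (h : TB n f)
    (h' : TB n g) (h'' : TB n e) : FB n (fun K _ w => RootP (f K w) (g K w) (e K w)) := by
  unfold RootP
  refine FB.ex (FB.and (FB.polyP h.lift (TB.var _)) ?_)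
  exact FB.eq h'.lift ((h.lift.sub h''.lift).mul (TB.var _))

private theorem FB.natP {n : ℕ} {f g : ∀ (K : Type) [Field K], (Fin n → K) → K} (h : TB n f)
    (h' : TB n g) : FB n (fun K _ w => NatP (f K w) (g K w)) := by
  unfold NatP
  refine FB.and (FB.cst h') (FB.ex (FB.and (FB.not (FB.eq (TB.var _) (TB.zero _)))
    (FB.and (FB.rootP h.lift (TB.var _) (TB.zero _)) (FB.all ?_))))
  refine FB.imp (FB.cst (TB.var _)) (FB.imp (FB.not (FB.eq (TB.var _) h'.lift.lift)) ?_)
  exact FB.imp (FB.rootP h.lift.lift (TB.var _).lift (TB.var _))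
    (FB.rootP h.lift.lift (TB.var _).lift ((TB.var _).add (TB.one _)))

/-- Suggested route (all small):
closure of `Fo` under not, and, implication (formula connectives), under ∃ and ∀ over the last variable
(`Fo (n+1) R -> Fo n (fun K v => ∃ x, R K (Fin.snoc v x))`: a formula with free variables in Fin (n+1)
is relabelled to a bounded formula, e.g. with `BoundedFormula.relabel` along
Fin (n+1) -> Fin n ⊕ Fin 1, `Formula.iExs`/`Formula.iAlls`, or build the bounded formula by hand and use
`BoundedFormula.realize_ex`), under renaming of variables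
(`Fo m R -> Fo n (fun K v => R K (v ∘ σ))`: `Formula.relabel`, `Formula.realize_relabel`), and
polynomial equations: for two terms s, t of Language.ring with variables Fin n the relation
`s.realize v = t.realize v` is `Fo` (`Term.equal`, `Formula.realize_equal`; terms with + and * are
evaluated by `FirstOrder.Ring.realize_add` etc.). To get Nrm (t - a) (x - b) write it as
∃ p q, p*p + b + a*(q*q) = x + t*(q*q). Alternatively (simplest) write the whole formulas explicitly as
BoundedFormula with ∃', ∀' and variables &i and let `simp [Formula.Realize, ...]` evaluate them. -/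
theorem fo_InF : Fo 2 (fun _ _ v => InF (v 1) (v 0)) :=
  (FB.inF (TB.var 1) (TB.var 0)).fo

theorem fo_PolyP : Fo 2 (fun _ _ v => PolyP (v 1) (v 0)) :=
  (FB.polyP (TB.var 1) (TB.var 0)).fo

theorem fo_NatP : Fo 2 (fun _ _ v => NatP (v 1) (v 0)) :=
  (FB.natP (TB.var 1) (TB.var 0)).fo

end MP4369f4
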