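import Pool.Agent.Lib_MP_4369f4.Defs

/-! TRA: the field ℂ(t_1,...,t_n) as a tower. Only `Defs` is used. -/

namespace MP4369f4

open Polynomial

/-- ℂ(t_i : i in σ). -/
abbrev KF (σ : Type) : Type := FractionRing (MvPolynomial σ ℂ)

/-- The variable t_i. -/
noncomputable def xv {σ : Type} (i : σ) : KF σ := algebraMap (MvPolynomial σ ℂ) (KF σ) (MvPolynomial.X i)

/-- The constants. -/
noncomputable def cc (σ : Type) (c : ℂ) : KF σ := algebraMap (MvPolynomial σ ℂ) (KF σ) (MvPolynomial.C c)

/-- A field homomorphism into K(X) hitting the constants and X is surjective. -/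
theorem surj_of_gens {K L : Type*} [Field K] [Field L] (f : L →+* RatFunc K)
    (hC : ∀ a : K, ∃ x, f x = RatFunc.C a) (hX : ∃ x, f x = RatFunc.X) :
    Function.Surjective f := by
  have hp : ∀ p : K[X], ∃ x, f x = algebraMap K[X] (RatFunc K) p := by
    intro p
    induction p using Polynomial.induction_on' with
    | add p q hp hq =>
      obtain ⟨x, hx⟩ := hp
      obtain ⟨y, hy⟩ := hq
      exact ⟨x + y, by rw [map_add, map_add, hx, hy]⟩
    | monomial n a =>
      obtain ⟨x, hx⟩ := hC a
      obtain ⟨y, hy⟩ := hX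
      refine ⟨x * y ^ n, ?_⟩
      rw [← Polynomial.C_mul_X_pow_eq_monomial, map_mul, map_pow, map_mul, map_pow, hx, hy,
        RatFunc.algebraMap_C, RatFunc.algebraMap_X]
  intro z
  induction z using RatFunc.induction_on with
  | f p q hq =>
    obtain ⟨x, hx⟩ := hp p
    obtain ⟨y, hy⟩ := hp q
    exact ⟨x / y, by rw [map_div₀, hx, hy]⟩

/-- Renaming the variables. -/
theorem equiv_rename {σ τ : Type} (s : σ ≃ τ) :
    ∃ e : KF σ ≃+* KF τ, (∀ i : σ, e (xv i) = xv (s i)) ∧ (∀ c : ℂ, e (cc σ c) = cc τ c) := by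
  refine ⟨IsFractionRing.ringEquivOfRingEquiv
    (MvPolynomial.renameEquiv ℂ s).toRingEquiv, ?_, ?_⟩
  · intro i
    unfold xv
    rw [IsFractionRing.ringEquivOfRingEquiv_algebraMap]
    simp
  · intro c
    unfold cc
    rw [IsFractionRing.ringEquivOfRingEquiv_algebraMap]
    simp

/-- Isomorphic fields have isomorphic rational function fields. -/
theorem equiv_ratFunc {K L : Type} [Field K] [Field L] (e : K ≃+* L) :
    ∃ E : RatFunc K ≃+* RatFunc L, ∀ a : K, E (RatFunc.C a) = RatFunc.C (e a) := by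
  refine ⟨IsFractionRing.ringEquivOfRingEquiv (Polynomial.mapEquiv e), ?_⟩
  intro a
  rw [← RatFunc.algebraMap_C, IsFractionRing.ringEquivOfRingEquiv_algebraMap,
    ← RatFunc.algebraMap_C]
  simp

/-- KF (Option σ) is isomorphic to RatFunc (KF σ), X (some i) to C (X i), constants to constants.
`MvPolynomial.optionEquivLeft ℂ σ : MvPolynomial (Option σ) ℂ ≃ₐ[ℂ] (MvPolynomial σ ℂ)[X]`; RatFunc
(Frac A) is a fraction field of A[X] for a domain A (search for the instance
`IsFractionRing A[X] (RatFunc (FractionRing A))`; `algebraMap A[X] (RatFunc (FractionRing A))` is the map to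
(Frac A)[X] followed by the map to RatFunc) and fraction fields of isomorphic domains are isomorphic
(`IsFractionRing.ringEquivOfRingEquiv` or `IsFractionRing.fieldEquivOfAlgEquiv`). -/
theorem equiv_option (σ : Type) :
    ∃ e : KF (Option σ) ≃+* RatFunc (KF σ),
      (∀ i : σ, e (xv (some i)) = RatFunc.C (xv i)) ∧
      (∀ c : ℂ, e (cc (Option σ) c) = RatFunc.C (cc σ c)) := by
  let ψ : MvPolynomial (Option σ) ℂ →+* RatFunc (KF σ) :=
    ((algebraMap (KF σ)[X] (RatFunc (KF σ))).comp
      (Polynomial.mapRingHom (algebraMap (MvPolynomial σ ℂ) (KF σ)))).comp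
      (MvPolynomial.optionEquivLeft ℂ σ).toRingEquiv.toRingHom
  have hψ : ∀ p, ψ p = algebraMap (KF σ)[X] (RatFunc (KF σ))
      (Polynomial.map (algebraMap (MvPolynomial σ ℂ) (KF σ))
        (MvPolynomial.optionEquivLeft ℂ σ p)) := fun p => rfl
  have hinj : Function.Injective ψ := by
    intro p q hpq
    rw [hψ, hψ] at hpq
    have h1 := IsFractionRing.injective (KF σ)[X] (RatFunc (KF σ)) hpq
    have h2 := Polynomial.map_injective _
      (IsFractionRing.injective (MvPolynomial σ ℂ) (KF σ)) h1
    exact (MvPolynomial.optionEquivLeft ℂ σ).injective h2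
  let f : KF (Option σ) →+* RatFunc (KF σ) := IsFractionRing.lift hinj
  have hf : ∀ p, f (algebraMap _ _ p) = ψ p := fun p => IsFractionRing.lift_algebraMap hinj p
  have hsome : ∀ i : σ, f (xv (some i)) = RatFunc.C (xv i) := by
    intro i
    unfold xv
    rw [hf, hψ, MvPolynomial.optionEquivLeft_X_some, Polynomial.map_C, RatFunc.algebraMap_C]
  have hcc : ∀ c : ℂ, f (cc (Option σ) c) = RatFunc.C (cc σ c) := by
    intro c
    unfold cc
    rw [hf, hψ, MvPolynomial.optionEquivLeft_C, Polynomial.map_C, RatFunc.algebraMap_C]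
  have hnone : f (xv none) = RatFunc.X := by
    unfold xv
    rw [hf, hψ, MvPolynomial.optionEquivLeft_X_none, Polynomial.map_X, RatFunc.algebraMap_X]
  have hA : ∀ a : MvPolynomial σ ℂ, f (algebraMap (MvPolynomial (Option σ) ℂ) _
      (MvPolynomial.rename some a)) = RatFunc.C (algebraMap (MvPolynomial σ ℂ) (KF σ) a) := by
    intro a
    have : MvPolynomial.optionEquivLeft ℂ σ (MvPolynomial.rename some a) = Polynomial.C a := by
      induction a using MvPolynomial.induction_on with
      | C c => rw [MvPolynomial.rename_C, MvPolynomial.optionEquivLeft_C]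
      | add p q hp hq => rw [map_add, map_add, hp, hq, map_add]
      | mul_X p i hp =>
        rw [map_mul, map_mul, hp, MvPolynomial.rename_X, MvPolynomial.optionEquivLeft_X_some,
          map_mul]
    rw [hf, hψ, this, Polynomial.map_C, RatFunc.algebraMap_C]
  have hsurj : Function.Surjective f := by
    apply surj_of_gens f
    · intro a
      obtain ⟨p, q, _, rfl⟩ := IsFractionRing.div_surjective (MvPolynomial σ ℂ) a
      refine ⟨algebraMap (MvPolynomial (Option σ) ℂ) _ (MvPolynomial.rename some p) /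
        algebraMap (MvPolynomial (Option σ) ℂ) _ (MvPolynomial.rename some q), ?_⟩
      rw [map_div₀, hA, hA, map_div₀]
    · exact ⟨_, hnone⟩
  exact ⟨RingEquiv.ofBijective f ⟨f.injective, hsurj⟩, hsome, hcc⟩

/-- The common step of the two theorems below. -/
theorem tower_aux (n : ℕ)
    (ih : ∀ i : Fin (n + 1), ∃ (K : Type) (_ : Field K) (φ : RatFunc ℂ →+* K) (_ : Tower K φ)
      (e : KF (Fin (n + 1)) ≃+* K),
      e (xv i) = φ RatFunc.X ∧ ∀ c : ℂ, e (cc _ c) = φ (RatFunc.C c)) (i : Fin (n + 2)) :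
    ∃ (K : Type) (_ : Field K) (φ : RatFunc ℂ →+* K) (_ : Tower K φ)
      (e : KF (Fin (n + 2)) ≃+* RatFunc K),
      e (xv i) = RatFunc.C (φ RatFunc.X) ∧ ∀ c : ℂ, e (cc _ c) = RatFunc.C (φ (RatFunc.C c)) := by
  obtain ⟨j, hj⟩ := exists_ne i
  have hi : ∃ i', finSuccEquiv' j i = some i' := by
    cases h : finSuccEquiv' j i with
    | none =>
      exfalso
      have h1 : finSuccEquiv' j i = finSuccEquiv' j j := by rw [h, finSuccEquiv'_at]
      exact hj ((finSuccEquiv' j).injective h1).symm
    | some i' => exact ⟨i', rfl⟩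
  obtain ⟨i', hi'⟩ := hi
  obtain ⟨K, _, φ, hT, e, he1, he2⟩ := ih i'
  obtain ⟨e1, h11, h12⟩ := equiv_rename (finSuccEquiv' j)
  obtain ⟨e2, h21, h22⟩ := equiv_option (Fin (n + 1))
  obtain ⟨e3, h31⟩ := equiv_ratFunc e
  refine ⟨K, inferInstance, φ, hT, (e1.trans e2).trans e3, ?_, ?_⟩
  · rw [RingEquiv.trans_apply, RingEquiv.trans_apply, h11, hi', h21, h31, he1]
  · intro c
    rw [RingEquiv.trans_apply, RingEquiv.trans_apply, h12, h22, h31, he2]

/-- For every finite type σ and every i in σ the field ℂ(t_j : j in σ) is a tower over ℂ(t_i).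
Induction on n. n = 0: KF (Fin 1) is isomorphic to RatFunc ℂ
(`MvPolynomial.uniqueAlgEquiv` / `MvPolynomial.pUnitAlgEquiv`), `Tower.base`. Step: choose j
different from i in Fin (n + 2); Fin (n + 2) is equivalent to Option (Fin (n + 1)) by an equivalence sending
j to none (`finSuccEquiv' j`) and i to some i'; `MvPolynomial.renameEquiv`, `equiv_option` and the
induction hypothesis for i' (isomorphic fields have isomorphic RatFunc, constants C x to C (e x)),
`Tower.step`. -/
theorem exists_tower (n : ℕ) (i : Fin (n + 1)) :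
    ∃ (K : Type) (_ : Field K) (φ : RatFunc ℂ →+* K) (_ : Tower K φ) (e : KF (Fin (n + 1)) ≃+* K),
      e (xv i) = φ RatFunc.X ∧ ∀ c : ℂ, e (cc _ c) = φ (RatFunc.C c) := by
  induction n with
  | zero =>
    have : Unique (Fin (0 + 1)) := inferInstanceAs (Unique (Fin 1))
    refine ⟨RatFunc ℂ, inferInstance, RingHom.id _, Tower.base,
      IsFractionRing.ringEquivOfRingEquiv (MvPolynomial.uniqueAlgEquiv ℂ (Fin (0 + 1))).toRingEquiv,
      ?_, ?_⟩
    · unfold xv
      rw [IsFractionRing.ringEquivOfRingEquiv_algebraMap]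
      simp
    · intro c
      unfold cc
      rw [IsFractionRing.ringEquivOfRingEquiv_algebraMap]
      simp
  | succ n ih =>
    obtain ⟨K, _, φ, hT, e, he1, he2⟩ := tower_aux n ih i
    exact ⟨RatFunc K, inferInstance, (RatFunc.C : K →+* RatFunc K).comp φ, Tower.step K φ hT, e,
      he1, he2⟩

/-- Final form used in MAIN: for at least 2 variables the outermost step is a RatFunc. Same argument
(choose j different from i, `equiv_option`, `exists_tower` for the remaining n + 1 variables). -/
theorem exists_tower_ratFunc (n : ℕ) (i : Fin (n + 2)) :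
    ∃ (K : Type) (_ : Field K) (φ : RatFunc ℂ →+* K) (_ : Tower K φ)
      (e : KF (Fin (n + 2)) ≃+* RatFunc K),
      e (xv i) = RatFunc.C (φ RatFunc.X) ∧ ∀ c : ℂ, e (cc _ c) = RatFunc.C (φ (RatFunc.C c)) := by
  exact tower_aux n (exists_tower n) i

end MP4369f4
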