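import Pool.Agent.Lib_MP_4369f4.SEM
import Pool.Agent.Lib_MP_4369f4.FORM
import Pool.Agent.Lib_MP_4369f4.TRA

/-! MAIN: assembly. -/

namespace MP4369f4

open Polynomial FirstOrder

section equiv

variable {K L : Type*} [Field K] [Field L] (e : K ≃+* L)

theorem nrm_equiv (f g : K) : Nrm (e f) (e g) ↔ Nrm f g := by
  constructor
  · intro h
    have := h.map (e.symm : L →+* K)
    simpa using this
  · intro h
    have := h.map (e : K →+* L)
    simpa using this

theorem cst_equiv (x : K) : Cst (e x) ↔ Cst x := by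
  constructor
  · rintro ⟨y, hy⟩
    refine ⟨e.symm y, e.injective ?_⟩
    simpa using hy
  · rintro ⟨y, hy⟩
    refine ⟨e y, ?_⟩
    rw [← map_pow, ← map_pow, ← map_add, hy, map_one]

theorem inF_equiv (t x : K) : InF (e t) (e x) ↔ InF t x := by
  unfold InF
  constructor
  · intro h a b ha hb
    have := h (e a) (e b) ((cst_equiv e a).2 ha) ((cst_equiv e b).2 hb)
    rwa [← map_sub, ← map_sub, nrm_equiv] at this
  · intro h a b ha hb
    obtain ⟨a, rfl⟩ := e.surjective a
    obtain ⟨b, rfl⟩ := e.surjective b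
    rw [← map_sub, ← map_sub, nrm_equiv]
    exact h a b ((cst_equiv e a).1 ha) ((cst_equiv e b).1 hb)

theorem ev_equiv (t a f : K) : Ev (e t) (e a) (e f) ↔ Ev t a f := by
  unfold Ev
  rw [e.surjective.exists]
  apply exists_congr
  intro g
  rw [nrm_equiv, ← map_sub, nrm_equiv, map_ne_zero_iff _ e.injective]
  apply and_congr_right
  intro _
  apply and_congr_right
  intro _
  apply and_congr_right
  intro _
  rw [e.surjective.forall]
  apply forall_congr'
  intro g'
  rw [map_ne_zero_iff _ e.injective]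
  apply forall_congr'
  intro _
  have h1 : (∀ b : L, Cst b → Nrm (e t - b) (e g) → Nrm (e t - b) (e g')) ↔
      (∀ b : K, Cst b → Nrm (t - b) g → Nrm (t - b) g') := by
    rw [e.surjective.forall]
    apply forall_congr'
    intro b
    rw [cst_equiv, ← map_sub, nrm_equiv, nrm_equiv]
  rw [h1]
  apply forall_congr'
  intro _
  rw [e.surjective.forall]
  apply forall_congr'
  intro h
  rw [inF_equiv, map_ne_zero_iff _ e.injective, nrm_equiv, nrm_equiv]

theorem polyP_equiv (t x : K) : PolyP (e t) (e x) ↔ PolyP t x := by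
  unfold PolyP
  rw [inF_equiv]
  apply and_congr_right
  intro _
  rw [e.surjective.forall]
  apply forall_congr'
  intro a
  rw [cst_equiv, ← ev_equiv e t a]
  simp

theorem rootP_equiv (t f r : K) : RootP (e t) (e f) (e r) ↔ RootP t f r := by
  unfold RootP
  rw [e.surjective.exists]
  apply exists_congr
  intro g
  rw [polyP_equiv, ← map_sub, ← map_mul, e.injective.eq_iff]

theorem natP_equiv (t x : K) : NatP (e t) (e x) ↔ NatP t x := by
  unfold NatP
  rw [cst_equiv]
  apply and_congr_right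
  intro _
  rw [e.surjective.exists]
  apply exists_congr
  intro f
  rw [map_ne_zero_iff _ e.injective]
  have h0 : RootP (e t) (e f) 0 ↔ RootP t f 0 := by
    rw [← map_zero e, rootP_equiv]
  rw [h0]
  apply and_congr_right
  intro _
  apply and_congr_right
  intro _
  rw [e.surjective.forall]
  apply forall_congr'
  intro r
  have h1 : RootP (e t) (e f) (e r + 1) ↔ RootP t f (r + 1) := by
    rw [← rootP_equiv e t f (r + 1), map_add, map_one]
  rw [cst_equiv, rootP_equiv, h1, e.injective.ne_iff]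

end equiv

/-- Meaning of `PolyP` in ℂ(t_1,...,t_n), n >= 2, t = t_i. -/
theorem polyP_meaning (n : ℕ) (i : Fin (n + 2)) (x : KF (Fin (n + 2))) :
    PolyP (xv i) x ↔ ∃ p : ℂ[X], x =
      algebraMap (MvPolynomial (Fin (n + 2)) ℂ) (KF (Fin (n + 2)))
        (aeval (MvPolynomial.X i : MvPolynomial (Fin (n + 2)) ℂ) p) := by
  obtain ⟨K, _, φ, hT, e, hx, hc⟩ := exists_tower_ratFunc n i
  have key : ∀ p : ℂ[X], e (algebraMap (MvPolynomial (Fin (n + 2)) ℂ) (KF (Fin (n + 2)))
      (aeval (MvPolynomial.X i : MvPolynomial (Fin (n + 2)) ℂ) p)) =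
      RatFunc.C (φ (algebraMap ℂ[X] (RatFunc ℂ) p)) := by
    intro p
    have h : (((e : KF (Fin (n + 2)) →+* RatFunc K).comp
        (algebraMap (MvPolynomial (Fin (n + 2)) ℂ) (KF (Fin (n + 2))))).comp
        ((aeval (MvPolynomial.X i : MvPolynomial (Fin (n + 2)) ℂ) :
          ℂ[X] →ₐ[ℂ] MvPolynomial (Fin (n + 2)) ℂ) : ℂ[X] →+* MvPolynomial (Fin (n + 2)) ℂ)) =
        ((RatFunc.C : K →+* RatFunc K).comp φ).comp (algebraMap ℂ[X] (RatFunc ℂ)) := by
      apply Polynomial.ringHom_ext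
      · intro c
        have h1 := hc c
        unfold cc at h1
        simpa [RatFunc.algebraMap_C] using h1
      · have h1 := hx
        unfold xv at h1
        simpa [RatFunc.algebraMap_X] using h1
    exact congrArg (fun f => f p) h
  rw [← polyP_equiv e, hx, hT.polyP_iff]
  apply exists_congr
  intro p
  rw [← key p, e.injective.eq_iff]

theorem natP_meaning (n : ℕ) (i : Fin (n + 2)) (x : KF (Fin (n + 2))) :
    NatP (xv i) x ↔ ∃ m : ℕ, x = (m : KF (Fin (n + 2))) := by
  obtain ⟨K, _, φ, hT, e, hx, hc⟩ := exists_tower_ratFunc n i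
  rw [← natP_equiv e, hx, hT.natP_iff]
  apply exists_congr
  intro m
  rw [← map_natCast e, e.injective.eq_iff]

theorem main : ∃ Φ : Language.ring.Formula (Fin 2), ∀ n : ℕ, 2 ≤ n → ∀ (i : Fin n)
    (x : FractionRing (MvPolynomial (Fin n) ℂ)),
    letI := Ring.compatibleRingOfRing (FractionRing (MvPolynomial (Fin n) ℂ))
    (Φ.Realize ![x, algebraMap (MvPolynomial (Fin n) ℂ) (FractionRing (MvPolynomial (Fin n) ℂ))
      (MvPolynomial.X i)] ↔ ∃ p : ℂ[X], x = algebraMap (MvPolynomial (Fin n) ℂ)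
        (FractionRing (MvPolynomial (Fin n) ℂ)) (aeval (MvPolynomial.X i) p)) := by
  obtain ⟨Φ, hΦ⟩ := fo_PolyP
  refine ⟨Φ, ?_⟩
  intro n hn i x
  obtain ⟨n, rfl⟩ : ∃ m, n = m + 2 := ⟨n - 2, by omega⟩
  letI := Ring.compatibleRingOfRing (FractionRing (MvPolynomial (Fin (n + 2)) ℂ))
  have h1 := hΦ (FractionRing (MvPolynomial (Fin (n + 2)) ℂ)) ![x, xv i]
  have h2 := polyP_meaning n i x
  rw [← h2]
  exact h1

theorem main_nat : ∃ Φ : Language.ring.Formula (Fin 2), ∀ n : ℕ, 2 ≤ n → ∀ (i : Fin n)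
    (x : FractionRing (MvPolynomial (Fin n) ℂ)),
    letI := Ring.compatibleRingOfRing (FractionRing (MvPolynomial (Fin n) ℂ))
    (Φ.Realize ![x, algebraMap (MvPolynomial (Fin n) ℂ) (FractionRing (MvPolynomial (Fin n) ℂ))
      (MvPolynomial.X i)] ↔ ∃ m : ℕ, x = (m : FractionRing (MvPolynomial (Fin n) ℂ))) := by
  obtain ⟨Φ, hΦ⟩ := fo_NatP
  refine ⟨Φ, ?_⟩
  intro n hn i x
  obtain ⟨n, rfl⟩ : ∃ m, n = m + 2 := ⟨n - 2, by omega⟩
  letI := Ring.compatibleRingOfRing (FractionRing (MvPolynomial (Fin (n + 2)) ℂ))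
  have h1 := hΦ (FractionRing (MvPolynomial (Fin (n + 2)) ℂ)) ![x, xv i]
  have h2 := natP_meaning n i x
  rw [← h2]
  exact h1

end MP4369f4
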