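import Pool.Agent.Lib_MP_4369f4.COD
import Pool.Agent.Lib_MP_4369f4.FER
import Pool.Agent.Lib_MP_4369f4.FDEF

/-! SEM: meaning of the predicates of FDEF in RatFunc K, K a tower. Imports COD FER DIC BAS as
stubs. Throughout t = C (φ X). -/

namespace MP4369f4

open Polynomial

variable {K : Type} [Field K] {φ : RatFunc ℂ →+* K}

theorem Tower.step' (hT : Tower K φ) :
    Tower (RatFunc K) ((RatFunc.C : K →+* RatFunc K).comp φ) := Tower.step K φ hT

theorem sub_const (a : ℂ) : RatFunc.C (φ RatFunc.X) - RatFunc.C (φ (RatFunc.C a)) =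
    (RatFunc.C (φ (lin a)) : RatFunc K) := by
  simp [lin]

/-- `Tower.const_iff` for the tower RatFunc K. -/
theorem Tower.cst_iff (hT : Tower K φ) (x : RatFunc K) :
    Cst x ↔ ∃ c : ℂ, x = RatFunc.C (φ (RatFunc.C c)) :=
  hT.step'.const_iff x

/-- `Tower.range_iff` for the tower RatFunc K and `Tower.cst_iff`; t - a = C (φ (lin a)). -/
theorem Tower.inF_iff (hT : Tower K φ) (x : RatFunc K) :
    InF (RatFunc.C (φ RatFunc.X)) x ↔ ∃ y : RatFunc ℂ, x = RatFunc.C (φ y) := by
  have h1 := hT.step'.range_iff x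
  simp only [RingHom.comp_apply] at h1
  rw [← h1]
  unfold InF
  constructor
  · intro h a b
    have := h _ _ ((hT.cst_iff _).2 ⟨a, rfl⟩) ((hT.cst_iff _).2 ⟨b, rfl⟩)
    rwa [sub_const] at this
  · intro h a b ha hb
    obtain ⟨a, rfl⟩ := (hT.cst_iff _).1 ha
    obtain ⟨b, rfl⟩ := (hT.cst_iff _).1 hb
    rw [sub_const]
    exact h a b

theorem C_phi_ne_zero {h : RatFunc ℂ} (hh : h ≠ 0) : (RatFunc.C (φ h) : RatFunc K) ≠ 0 := by
  have : Function.Injective ((RatFunc.C : K →+* RatFunc K).comp φ) := RingHom.injective _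
  intro h0
  apply hh
  apply this
  rw [map_zero]
  exact h0

theorem C_phi_inj : Function.Injective (fun h : RatFunc ℂ => (RatFunc.C (φ h) : RatFunc K)) :=
  RingHom.injective ((RatFunc.C : K →+* RatFunc K).comp φ)

/-- `Tower.evenAt_iff` translated. -/
theorem Tower.ev_iff (hT : Tower K φ) (a : ℂ) {f : RatFunc ℂ} (hf : f ≠ 0) :
    Ev (RatFunc.C (φ RatFunc.X)) (RatFunc.C (φ (RatFunc.C a))) (RatFunc.C (φ f)) ↔
      EvenAt a f := by
  rw [hT.evenAt_iff a hf]
  unfold Ev
  apply exists_congr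
  intro g
  rw [sub_const]
  apply and_congr_right
  intro hg
  apply and_congr_right
  intro _
  apply and_congr_right
  intro _
  apply forall_congr'
  intro g'
  apply forall_congr'
  intro hg'
  constructor
  · intro h h1 k hk hk1
    apply h _ (RatFunc.C (φ k)) ((hT.inF_iff _).2 ⟨k, rfl⟩) (C_phi_ne_zero hk) hk1
    intro b hb
    obtain ⟨b, rfl⟩ := (hT.cst_iff _).1 hb
    rw [sub_const]
    exact h1 b
  · intro h h1 k hk hk0 hk1
    obtain ⟨k, rfl⟩ := (hT.inF_iff _).1 hk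
    have hk0' : k ≠ 0 := by
      rintro rfl
      exact hk0 (by simp)
    apply h _ k hk0' hk1
    intro b hb
    have := h1 _ ((hT.cst_iff _).2 ⟨b, rfl⟩)
    rw [sub_const] at this
    exact this hb

/-- x = C (φ y) by `Tower.inF_iff`; 1 + (t - a) x^2 = C (φ (1 + lin a * y^2)), nonzero inside by
`one_add_ne_zero`; `Tower.ev_iff`, `evenAt_iff_regular`, `poly_iff_regular`. -/
theorem Tower.polyP_iff (hT : Tower K φ) (x : RatFunc K) :
    PolyP (RatFunc.C (φ RatFunc.X)) x ↔
      ∃ p : ℂ[X], x = RatFunc.C (φ (algebraMap ℂ[X] (RatFunc ℂ) p)) := by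
  have key : ∀ (y : RatFunc ℂ) (a : ℂ),
      Ev (RatFunc.C (φ RatFunc.X)) (RatFunc.C (φ (RatFunc.C a)))
        (1 + (RatFunc.C (φ RatFunc.X) - RatFunc.C (φ (RatFunc.C a))) *
          (RatFunc.C (φ y) : RatFunc K) ^ 2) ↔ y.denom.eval a ≠ 0 := by
    intro y a
    rw [sub_const, ← evenAt_iff_regular, ← hT.ev_iff a (one_add_ne_zero a y)]
    simp
  constructor
  · rintro ⟨h1, h2⟩
    obtain ⟨y, rfl⟩ := (hT.inF_iff _).1 h1
    have h3 : ∀ a : ℂ, y.denom.eval a ≠ 0 := by
      intro a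
      exact (key y a).1 (h2 _ ((hT.cst_iff _).2 ⟨a, rfl⟩))
    obtain ⟨p, hp⟩ := (poly_iff_regular y).1 h3
    exact ⟨p, by rw [← hp]⟩
  · rintro ⟨p, rfl⟩
    refine ⟨(hT.inF_iff _).2 ⟨_, rfl⟩, ?_⟩
    intro a ha
    obtain ⟨a, rfl⟩ := (hT.cst_iff _).1 ha
    exact (key _ a).2 ((poly_iff_regular _).2 ⟨p, rfl⟩ a)

/-- RootP t f r for f = C (φ p), r = C (φ (C c)): p(c) = 0 (`Polynomial.dvd_iff_isRoot`; injectivity of
C ∘ φ ∘ algebraMap). -/
theorem Tower.rootP_iff (hT : Tower K φ) (p : ℂ[X]) (c : ℂ) :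
    RootP (RatFunc.C (φ RatFunc.X)) (RatFunc.C (φ (algebraMap ℂ[X] (RatFunc ℂ) p)))
      (RatFunc.C (φ (RatFunc.C c))) ↔ p.eval c = 0 := by
  have hl : lin c = algebraMap ℂ[X] (RatFunc ℂ) (X - C c) := by
    rw [map_sub, RatFunc.algebraMap_X, RatFunc.algebraMap_C]; rfl
  constructor
  · rintro ⟨g, hg, h⟩
    obtain ⟨q, rfl⟩ := (hT.polyP_iff g).1 hg
    rw [sub_const, hl, ← map_mul, ← map_mul, ← map_mul] at h
    have h1 := C_phi_inj h
    have h2 := IsFractionRing.injective ℂ[X] (RatFunc ℂ) h1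
    rw [h2]; simp
  · intro h
    obtain ⟨q, hq⟩ := dvd_iff_isRoot.2 h
    refine ⟨RatFunc.C (φ (algebraMap ℂ[X] (RatFunc ℂ) q)), (hT.polyP_iff _).2 ⟨q, rfl⟩, ?_⟩
    rw [sub_const, hl, ← map_mul, ← map_mul, ← map_mul, ← hq]

/-- -> : RootP t f 0 gives that f = t g is the image of a polynomial p, nonzero; if x = c is not a natural number
then by induction every natural number m is a root of p (m is not x), contradiction with finitely many
roots. <- : x = m, p = ∏_{k <= m} (X - k): if p(r) = 0, r constant, r ≠ m then r = k < m and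
r + 1 is a root. -/
theorem Tower.natP_iff (hT : Tower K φ) (x : RatFunc K) :
    NatP (RatFunc.C (φ RatFunc.X)) x ↔ ∃ m : ℕ, x = (m : RatFunc K) := by
  haveI := hT.step'.charZero
  have hzero : (0 : RatFunc K) = RatFunc.C (φ (RatFunc.C 0)) := by simp
  have hadd : ∀ c : ℂ, (RatFunc.C (φ (RatFunc.C c)) : RatFunc K) + 1 =
      RatFunc.C (φ (RatFunc.C (c + 1))) := by intro c; simp
  have hnat : ∀ m : ℕ, (RatFunc.C (φ (RatFunc.C (m : ℂ))) : RatFunc K) = m := by
    intro m; simp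
  have hcinj : ∀ c d : ℂ, (RatFunc.C (φ (RatFunc.C c)) : RatFunc K) =
      RatFunc.C (φ (RatFunc.C d)) → c = d := by
    intro c d h
    have h1 := C_phi_inj h
    exact RatFunc.C.injective h1
  constructor
  · rintro ⟨hx, f, hf, h0, hr⟩
    obtain ⟨c, rfl⟩ := (hT.cst_iff _).1 hx
    have hfp : ∃ p : ℂ[X], f = RatFunc.C (φ (algebraMap ℂ[X] (RatFunc ℂ) p)) := by
      obtain ⟨g, hg, h⟩ := h0
      obtain ⟨q, rfl⟩ := (hT.polyP_iff g).1 hg
      refine ⟨X * q, ?_⟩
      rw [h, sub_zero, ← map_mul, ← map_mul, ← RatFunc.algebraMap_X, ← map_mul]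
    obtain ⟨p, rfl⟩ := hfp
    have hp : p ≠ 0 := by
      rintro rfl
      exact hf (by simp)
    by_contra hno
    have hm : ∀ m : ℕ, p.eval (m : ℂ) = 0 := by
      intro m
      induction m with
      | zero =>
        rw [hzero] at h0
        simpa using (hT.rootP_iff p 0).1 h0
      | succ m ih =>
        have h1 := hr (RatFunc.C (φ (RatFunc.C (m : ℂ)))) ((hT.cst_iff _).2 ⟨_, rfl⟩)
          (by
            intro h2
            apply hno
            refine ⟨m, ?_⟩
            rw [← h2, hnat]) ((hT.rootP_iff p m).2 ih)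
        rw [hadd] at h1
        have := (hT.rootP_iff p _).1 h1
        push_cast
        exact this
    have hfin : (p.roots.toFinset : Set ℂ).Finite := Finset.finite_toSet _
    have hsub : Set.range (fun m : ℕ => (m : ℂ)) ⊆ (p.roots.toFinset : Set ℂ) := by
      rintro _ ⟨m, rfl⟩
      simp only [Finset.mem_coe, Multiset.mem_toFinset, mem_roots hp, IsRoot.def]
      exact hm m
    exact Set.infinite_range_of_injective Nat.cast_injective (hfin.subset hsub)
  · rintro ⟨m, rfl⟩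
    refine ⟨?_, RatFunc.C (φ (algebraMap ℂ[X] (RatFunc ℂ)
      (∏ k ∈ Finset.range (m + 1), (X - C (k : ℂ))))), ?_, ?_, ?_⟩
    · rw [← hnat]; exact (hT.cst_iff _).2 ⟨_, rfl⟩
    · apply C_phi_ne_zero
      intro h
      have h1 := (map_eq_zero_iff _ (IsFractionRing.injective ℂ[X] (RatFunc ℂ))).1 h
      rw [Finset.prod_eq_zero_iff] at h1
      obtain ⟨k, _, hk⟩ := h1
      exact X_sub_C_ne_zero _ hk
    · rw [hzero]
      apply (hT.rootP_iff _ _).2
      rw [eval_prod, Finset.prod_eq_zero_iff]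
      exact ⟨0, by simp, by simp⟩
    · intro r hr hne h1
      obtain ⟨c, rfl⟩ := (hT.cst_iff _).1 hr
      have h2 := (hT.rootP_iff _ _).1 h1
      rw [eval_prod, Finset.prod_eq_zero_iff] at h2
      obtain ⟨k, hk, hk1⟩ := h2
      have hck : c = k := by
        simp only [eval_sub, eval_X, eval_C] at hk1
        exact sub_eq_zero.1 hk1
      subst hck
      have hkm : k ≠ m := by
        rintro rfl
        exact hne (hnat k)
      rw [hadd]
      apply (hT.rootP_iff _ _).2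
      rw [eval_prod, Finset.prod_eq_zero_iff]
      refine ⟨k + 1, ?_, by simp⟩
      simp only [Finset.mem_range] at hk ⊢
      omega

end MP4369f4
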