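import Pool.Agent.Lib_MP_4369f4.Defs

/-! SQC: squares in towers. Only `Defs` is used. -/

namespace MP4369f4

open Polynomial

/-- If a in E is a square in E(X) then it is a square in E: x = p/q coprime, p^2 = a q^2, compare
(q is a unit as q^2 divides p^2; or natDegree and leading coefficients: lc(p)^2 = a lc(q)^2). -/
theorem isSquare_of_isSquare_C {E : Type*} [Field E] {a : E}
    (h : IsSquare (RatFunc.C a : RatFunc E)) : IsSquare a := by
  obtain ⟨x, hx⟩ := h
  have hq : x.denom ≠ 0 := x.denom_ne_zero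
  have hq' : algebraMap E[X] (RatFunc E) x.denom ≠ 0 := by
    rw [Ne, map_eq_zero_iff _ (IsFractionRing.injective E[X] (RatFunc E))]
    exact hq
  have hx' : x = algebraMap E[X] (RatFunc E) x.num / algebraMap E[X] (RatFunc E) x.denom :=
    (RatFunc.num_div_denom x).symm
  have key : algebraMap E[X] (RatFunc E) (Polynomial.C a * x.denom ^ 2) =
      algebraMap E[X] (RatFunc E) (x.num ^ 2) := by
    rw [map_mul, map_pow, map_pow, RatFunc.algebraMap_C, hx]
    have hm := (eq_div_iff hq').mp hx'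
    rw [← hm]
    ring
  have key2 : Polynomial.C a * x.denom ^ 2 = x.num ^ 2 :=
    IsFractionRing.injective E[X] (RatFunc E) key
  have h3 := congrArg Polynomial.leadingCoeff key2
  rw [leadingCoeff_mul, leadingCoeff_C, leadingCoeff_pow, leadingCoeff_pow] at h3
  have hl : x.denom.leadingCoeff ≠ 0 := leadingCoeff_ne_zero.mpr hq
  refine ⟨x.num.leadingCoeff / x.denom.leadingCoeff, ?_⟩
  field_simp
  linear_combination h3

/-- Induction on the tower with `isSquare_of_isSquare_C`. -/
theorem Tower.isSquare_of {K : Type} [Field K] {φ : RatFunc ℂ →+* K} (hT : Tower K φ)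
    {h : RatFunc ℂ} (hs : IsSquare (φ h)) : IsSquare h := by
  induction hT with
  | base => exact hs
  | step K φ hT ih => exact ih (isSquare_of_isSquare_C hs)

/-- A nonempty product of distinct t - b is not a square in ℂ(t): otherwise
(∏ (X - C b)) * q^2 = p^2 in ℂ[X] with q nonzero; the root multiplicity at one b in B is odd on the
left and even on the right. -/
theorem prod_lin_not_isSquare {B : Finset ℂ} (hB : B.Nonempty) :
    ¬ IsSquare (∏ b ∈ B, lin b) := by
  rintro ⟨x, hx⟩
  have hq : x.denom ≠ 0 := x.denom_ne_zero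
  have hq' : algebraMap ℂ[X] (RatFunc ℂ) x.denom ≠ 0 := by
    rw [Ne, map_eq_zero_iff _ (IsFractionRing.injective ℂ[X] (RatFunc ℂ))]
    exact hq
  have hx' : x = algebraMap ℂ[X] (RatFunc ℂ) x.num / algebraMap ℂ[X] (RatFunc ℂ) x.denom :=
    (RatFunc.num_div_denom x).symm
  have hlin : ∀ b : ℂ, lin b = algebraMap ℂ[X] (RatFunc ℂ) (X - Polynomial.C b) := by
    intro b
    rw [map_sub, RatFunc.algebraMap_X, RatFunc.algebraMap_C, lin]
  have key : algebraMap ℂ[X] (RatFunc ℂ) ((∏ b ∈ B, (X - Polynomial.C b)) * x.denom ^ 2) =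
      algebraMap ℂ[X] (RatFunc ℂ) (x.num ^ 2) := by
    rw [map_mul, map_pow, map_pow, map_prod]
    simp_rw [← hlin]
    rw [hx]
    have hm := (eq_div_iff hq').mp hx'
    rw [← hm]
    ring
  have key2 : (∏ b ∈ B, (X - Polynomial.C b)) * x.denom ^ 2 = x.num ^ 2 :=
    IsFractionRing.injective ℂ[X] (RatFunc ℂ) key
  obtain ⟨b, hb⟩ := hB
  have hP : (∏ b ∈ B, (X - Polynomial.C b)) ≠ 0 :=
    Finset.prod_ne_zero_iff.mpr fun b _ => X_sub_C_ne_zero b
  have h1 : rootMultiplicity b (∏ b ∈ B, (X - Polynomial.C b)) = 1 := by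
    rw [← Finset.mul_prod_erase B _ hb, rootMultiplicity_mul, rootMultiplicity_X_sub_C_self,
      rootMultiplicity_eq_zero]
    · rw [IsRoot.def, eval_prod, Finset.prod_eq_zero_iff]
      rintro ⟨c, hc, h0⟩
      rw [eval_sub, eval_X, eval_C, sub_eq_zero] at h0
      exact (Finset.mem_erase.mp hc).1 h0.symm
    · rw [Finset.mul_prod_erase B (fun b => X - Polynomial.C b) hb]
      exact hP
  have h3 := congrArg (rootMultiplicity b) key2
  have hn0 : (∏ b ∈ B, (X - Polynomial.C b)) * x.denom ^ 2 ≠ 0 :=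
    mul_ne_zero hP (pow_ne_zero 2 hq)
  have hn : x.num ≠ 0 := by
    intro h0
    rw [key2, h0] at hn0
    exact hn0 (zero_pow two_ne_zero)
  rw [rootMultiplicity_mul hn0, h1] at h3
  rw [sq, sq, rootMultiplicity_mul (mul_ne_zero hq hq),
    rootMultiplicity_mul (mul_ne_zero hn hn)] at h3
  omega

theorem Tower.prod_lin_not_isSquare {K : Type} [Field K] {φ : RatFunc ℂ →+* K} (hT : Tower K φ)
    {B : Finset ℂ} (hB : B.Nonempty) : ¬ IsSquare (∏ b ∈ B, φ (lin b)) := by
  rw [← map_prod]
  exact fun h => MP4369f4.prod_lin_not_isSquare hB (hT.isSquare_of h)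

end MP4369f4
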